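import Pool.Agent.Lib.MP_3e612f_nt.HD.Defs

/-!
HD, section Avg: a function whose words of length `L` come from a small set against a phase whose
short sums have small moments.

PROOF. Averaging over shifts `a < L`: `∑_{n ≤ N} G n u n` differs from
`∑_{n ≤ N} (1/L) ∑_{a < L} G (n + a) u (n + a)` by at most `2 L` (a shift by `a` changes the sum
over `Icc 1 N` of a function bounded by one by at most `2 a`; compare `WP.shift_sum` in
`WPoly.lean`). For every `n` choose `b_n ∈ B` from `hcov`; the inner average is at most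
`η + t_n`, `t_n = ‖(1/L) ∑_a b_n a * u (n + a)‖`. Finally `t ≤ τ + t ^ (2 s) / τ ^ (2 s - 1)` for
`t ≥ 0` and `∑_n t_n ^ (2 s) ≤ ∑_{b ∈ B} ∑_n (...) ^ (2 s) ≤ card B * V * N ≤ τ ^ (2 s) N`.
-/

set_option autoImplicit false

namespace Pool.Agent.Lib.MP_3e612f_nt.HD

private theorem Avg_shift_one (f : ℕ → ℂ) (hf : ∀ n, ‖f n‖ ≤ 1) (N a : ℕ) :
    ‖∑ n ∈ Finset.Icc 1 N, f (n + a) - ∑ n ∈ Finset.Icc 1 N, f (n + (a + 1))‖ ≤ 2 := by
  have h : ∀ M : ℕ, ∑ n ∈ Finset.Icc 1 M, f (n + a) - ∑ n ∈ Finset.Icc 1 M, f (n + (a + 1)) =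
      f (1 + a) - f (M + (a + 1)) := by
    intro M
    induction M with
    | zero => simp [add_comm]
    | succ M ih =>
      rw [Finset.sum_Icc_succ_top (by omega), Finset.sum_Icc_succ_top (by omega)]
      have e1 : M + 1 + a = M + (a + 1) := by ring
      rw [e1]
      linear_combination ih
  rw [h N]
  have h1 := hf (1 + a)
  have h2 := hf (N + (a + 1))
  calc ‖f (1 + a) - f (N + (a + 1))‖ ≤ ‖f (1 + a)‖ + ‖f (N + (a + 1))‖ := norm_sub_le _ _
    _ ≤ 2 := by linarith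

private theorem Avg_shift (f : ℕ → ℂ) (hf : ∀ n, ‖f n‖ ≤ 1) (N a : ℕ) :
    ‖∑ n ∈ Finset.Icc 1 N, f n - ∑ n ∈ Finset.Icc 1 N, f (n + a)‖ ≤ 2 * a := by
  induction a with
  | zero => simp
  | succ a ih =>
    have h := Avg_shift_one f hf N a
    push_cast
    calc ‖∑ n ∈ Finset.Icc 1 N, f n - ∑ n ∈ Finset.Icc 1 N, f (n + (a + 1))‖
        = ‖(∑ n ∈ Finset.Icc 1 N, f n - ∑ n ∈ Finset.Icc 1 N, f (n + a)) +
          (∑ n ∈ Finset.Icc 1 N, f (n + a) - ∑ n ∈ Finset.Icc 1 N, f (n + (a + 1)))‖ := by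
          congr 1
          ring
      _ ≤ _ := norm_add_le _ _
      _ ≤ 2 * (a + 1) := by linarith

private theorem Avg_tau {t τ : ℝ} (ht : 0 ≤ t) (hτ : 0 < τ) {s : ℕ} (hs : 1 ≤ s) :
    t ≤ τ + t ^ (2 * s) / τ ^ (2 * s - 1) := by
  have h0 : 0 ≤ t ^ (2 * s) / τ ^ (2 * s - 1) := by positivity
  rcases le_total t τ with h | h
  · linarith
  · have h1 : t ≤ t ^ (2 * s) / τ ^ (2 * s - 1) := by
      rw [le_div_iff₀ (by positivity)]
      have e : t ^ (2 * s) = t * t ^ (2 * s - 1) := by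
        rw [← pow_succ']
        congr 1
        omega
      rw [e]
      exact mul_le_mul_of_nonneg_left (pow_le_pow_left₀ hτ.le h _) ht
    linarith

theorem avg_le {G u : ℕ → ℂ} (hG : ∀ n, ‖G n‖ ≤ 1) (hu : ∀ n, ‖u n‖ ≤ 1) {L : ℕ} (hL : 1 ≤ L)
    {η V τ : ℝ} (hη : 0 ≤ η) (hV : 0 ≤ V) (hτ : 0 < τ) {s : ℕ} (hs : 1 ≤ s)
    (B : Finset (ℕ → ℂ)) (hcov : ∀ n, ∃ b ∈ B, ∑ a ∈ Finset.range L, ‖G (n + a) - b a‖ ≤ η * L)
    (N : ℕ) (hmom : ∀ b ∈ B, ∑ n ∈ Finset.Icc 1 N, ‖(1 / (L : ℂ)) * ∑ a ∈ Finset.range L,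
      b a * u (n + a)‖ ^ (2 * s) ≤ V * N) (hBV : (B.card : ℝ) * V ≤ τ ^ (2 * s)) :
    ‖∑ n ∈ Finset.Icc 1 N, G n * u n‖ ≤ 2 * L + η * N + 2 * τ * N := by
  classical
  have _ := hη
  have _ := hV
  have hL0 : (0 : ℝ) < L := by exact_mod_cast hL
  have hLC : (L : ℂ) ≠ 0 := by exact_mod_cast hL0.ne'
  have hnL : ‖(1 / (L : ℂ))‖ = 1 / L := by
    rw [norm_div, norm_one, Complex.norm_natCast]
  set f : ℕ → ℂ := fun n => G n * u n with hfdef
  have hf : ∀ n, ‖f n‖ ≤ 1 := by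
    intro n
    rw [hfdef]
    simp only [norm_mul]
    exact mul_le_one₀ (hG n) (norm_nonneg _) (hu n)
  choose b hbB hb using hcov
  set t : ℕ → ℝ := fun n => ‖(1 / (L : ℂ)) * ∑ a ∈ Finset.range L, b n a * u (n + a)‖ with ht
  have ht0 : ∀ n, 0 ≤ t n := fun n => norm_nonneg _
  -- the averaged sum
  set A : ℂ := (1 / (L : ℂ)) * ∑ a ∈ Finset.range L, ∑ n ∈ Finset.Icc 1 N, f (n + a) with hA
  have hdiff : ‖∑ n ∈ Finset.Icc 1 N, f n - A‖ ≤ 2 * L := by
    have e1 : ∑ n ∈ Finset.Icc 1 N, f n - A = (1 / (L : ℂ)) * ∑ a ∈ Finset.range L,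
        (∑ n ∈ Finset.Icc 1 N, f n - ∑ n ∈ Finset.Icc 1 N, f (n + a)) := by
      rw [Finset.sum_sub_distrib, Finset.sum_const, Finset.card_range, nsmul_eq_mul, mul_sub, hA]
      congr 1
      field_simp
    rw [e1, norm_mul, hnL]
    have h2 : ‖∑ a ∈ Finset.range L, (∑ n ∈ Finset.Icc 1 N, f n - ∑ n ∈ Finset.Icc 1 N, f (n + a))‖ ≤
        L * (2 * L) := by
      refine (norm_sum_le _ _).trans ?_
      have h3 : ∀ a ∈ Finset.range L, ‖∑ n ∈ Finset.Icc 1 N, f n - ∑ n ∈ Finset.Icc 1 N, f (n + a)‖ ≤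
          2 * (L : ℝ) := by
        intro a ha
        have ha' : (a : ℝ) ≤ L := by exact_mod_cast (Finset.mem_range.1 ha).le
        have := Avg_shift f hf N a
        linarith
      refine (Finset.sum_le_sum h3).trans ?_
      rw [Finset.sum_const, Finset.card_range, nsmul_eq_mul]
    calc 1 / (L : ℝ) * _ ≤ 1 / (L : ℝ) * (L * (2 * L)) := by gcongr
      _ = 2 * L := by field_simp
  -- the inner averages
  have hinner : ∀ n, ‖(1 / (L : ℂ)) * ∑ a ∈ Finset.range L, f (n + a)‖ ≤ η + t n := by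
    intro n
    have e1 : (1 / (L : ℂ)) * ∑ a ∈ Finset.range L, f (n + a) =
        (1 / (L : ℂ)) * ∑ a ∈ Finset.range L, (G (n + a) - b n a) * u (n + a) +
          (1 / (L : ℂ)) * ∑ a ∈ Finset.range L, b n a * u (n + a) := by
      rw [← mul_add, ← Finset.sum_add_distrib]
      congr 1
      refine Finset.sum_congr rfl fun a _ => ?_
      rw [hfdef]
      ring
    rw [e1]
    refine (norm_add_le _ _).trans ?_
    have h2 : ‖(1 / (L : ℂ)) * ∑ a ∈ Finset.range L, (G (n + a) - b n a) * u (n + a)‖ ≤ η := by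
      rw [norm_mul, hnL]
      have h3 : ‖∑ a ∈ Finset.range L, (G (n + a) - b n a) * u (n + a)‖ ≤ η * L := by
        refine (norm_sum_le _ _).trans (le_trans (Finset.sum_le_sum fun a _ => ?_) (hb n))
        rw [norm_mul]
        exact mul_le_of_le_one_right (norm_nonneg _) (hu _)
      calc 1 / (L : ℝ) * _ ≤ 1 / (L : ℝ) * (η * L) := by gcongr
        _ = η := by field_simp
    linarith
  have hAle : ‖A‖ ≤ η * N + ∑ n ∈ Finset.Icc 1 N, t n := by
    have e1 : A = ∑ n ∈ Finset.Icc 1 N, (1 / (L : ℂ)) * ∑ a ∈ Finset.range L, f (n + a) := by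
      rw [hA, Finset.sum_comm, Finset.mul_sum]
    rw [e1]
    refine (norm_sum_le _ _).trans ((Finset.sum_le_sum fun n _ => hinner n).trans ?_)
    rw [Finset.sum_add_distrib, Finset.sum_const, Nat.card_Icc, nsmul_eq_mul, Nat.add_sub_cancel]
    linarith
  -- the moments
  have hmom2 : ∑ n ∈ Finset.Icc 1 N, t n ^ (2 * s) ≤ τ ^ (2 * s) * N := by
    calc ∑ n ∈ Finset.Icc 1 N, t n ^ (2 * s)
        ≤ ∑ n ∈ Finset.Icc 1 N, ∑ c ∈ B, ‖(1 / (L : ℂ)) * ∑ a ∈ Finset.range L,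
          c a * u (n + a)‖ ^ (2 * s) := by
          refine Finset.sum_le_sum fun n _ => ?_
          exact Finset.single_le_sum (f := fun c : ℕ → ℂ => ‖(1 / (L : ℂ)) * ∑ a ∈ Finset.range L,
            c a * u (n + a)‖ ^ (2 * s)) (fun c _ => by positivity) (hbB n)
      _ = ∑ c ∈ B, ∑ n ∈ Finset.Icc 1 N, ‖(1 / (L : ℂ)) * ∑ a ∈ Finset.range L,
          c a * u (n + a)‖ ^ (2 * s) := Finset.sum_comm
      _ ≤ ∑ _c ∈ B, V * N := Finset.sum_le_sum hmom
      _ = (B.card : ℝ) * V * N := by rw [Finset.sum_const, nsmul_eq_mul]; ring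
      _ ≤ τ ^ (2 * s) * N := by gcongr
  have hsum : ∑ n ∈ Finset.Icc 1 N, t n ≤ 2 * τ * N := by
    calc ∑ n ∈ Finset.Icc 1 N, t n
        ≤ ∑ n ∈ Finset.Icc 1 N, (τ + t n ^ (2 * s) / τ ^ (2 * s - 1)) :=
          Finset.sum_le_sum fun n _ => Avg_tau (ht0 n) hτ hs
      _ = τ * N + (∑ n ∈ Finset.Icc 1 N, t n ^ (2 * s)) / τ ^ (2 * s - 1) := by
          rw [Finset.sum_add_distrib, Finset.sum_const, Nat.card_Icc, nsmul_eq_mul,
            Nat.add_sub_cancel, Finset.sum_div]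
          ring
      _ ≤ τ * N + τ ^ (2 * s) * N / τ ^ (2 * s - 1) := by gcongr
      _ = 2 * τ * N := by
          have e : τ ^ (2 * s) = τ * τ ^ (2 * s - 1) := by
            rw [← pow_succ']
            congr 1
            omega
          rw [e]
          field_simp
          ring
  calc ‖∑ n ∈ Finset.Icc 1 N, G n * u n‖ = ‖(∑ n ∈ Finset.Icc 1 N, f n - A) + A‖ := by
        rw [sub_add_cancel]
    _ ≤ ‖∑ n ∈ Finset.Icc 1 N, f n - A‖ + ‖A‖ := norm_add_le _ _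
    _ ≤ 2 * L + η * N + 2 * τ * N := by linarith

end Pool.Agent.Lib.MP_3e612f_nt.HD
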