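import Pool.Agent.Lib.MP_3e612f_nt.HD.Defs

/-!
HD, section Coef: coefficients of the polynomial of differences.

PROOF of `shiftPoly_irr`. Let `d'` be the LARGEST index with `R.coeff d'` irrational (`d ≤ d'`) and
`j` the SMALLEST index with `∑ x_i ^ j ≠ ∑ y_i ^ j`; `1 ≤ j ≤ s < d'` (`j = 0` gives `s = s`). The
coefficient of `taylor a R` in degree `m` is `∑_t R.coeff (m + t) * (m + t).choose m * a ^ t`
(`Polynomial.taylor_coeff`, `Polynomial.hasseDeriv_coeff`), so the coefficient of `shiftPoly R x y`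
in degree `m = d' - j ≥ 1` is `∑_t R.coeff (m + t) * (m + t).choose m * σ_t`,
`σ_t = ∑ x_i ^ t - ∑ y_i ^ t ∈ ℤ`: zero for `t < j`, irrational for `t = j`, rational for `t > j`.
-/

set_option autoImplicit false

namespace Pool.Agent.Lib.MP_3e612f_nt.HD

theorem shiftPoly_eval (R : Polynomial ℝ) {s : ℕ} (x y : Fin s → ℕ) (n : ℕ) :
    (shiftPoly R x y).eval (n : ℝ) =
      ∑ i, (R.eval ((n + x i : ℕ) : ℝ) - R.eval ((n + y i : ℕ) : ℝ)) := by
  unfold shiftPoly
  rw [Polynomial.eval_finset_sum]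
  refine Finset.sum_congr rfl fun i _ => ?_
  rw [Polynomial.eval_sub, Polynomial.taylor_eval, Polynomial.taylor_eval]
  push_cast
  rfl

/-- The coefficients of a Taylor shift. -/
private lemma Coef_taylor (R : Polynomial ℝ) (a : ℝ) (m : ℕ) :
    (Polynomial.taylor a R).coeff m =
      ∑ t ∈ Finset.range (R.natDegree + 1), ((t.choose m : ℕ) : ℝ) * R.coeff t * a ^ (t - m) := by
  rw [Polynomial.taylor_coeff, Polynomial.hasseDeriv_apply]
  rw [Polynomial.sum_over_range _ (fun n => by simp), Polynomial.eval_finset_sum]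
  refine Finset.sum_congr rfl fun t _ => ?_
  rw [Polynomial.eval_monomial]

private lemma Coef_shift (R : Polynomial ℝ) {s : ℕ} (x y : Fin s → ℕ) (m : ℕ) :
    (shiftPoly R x y).coeff m =
      ∑ t ∈ Finset.range (R.natDegree + 1), ((t.choose m : ℕ) : ℝ) * R.coeff t *
        (((∑ i, (x i : ℤ) ^ (t - m) - ∑ i, (y i : ℤ) ^ (t - m) : ℤ)) : ℝ) := by
  unfold shiftPoly
  rw [Polynomial.finset_sum_coeff]
  simp only [Polynomial.coeff_sub, Coef_taylor]
  rw [Finset.sum_congr rfl (fun i _ => (Finset.sum_sub_distrib _ _).symm), Finset.sum_comm]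
  refine Finset.sum_congr rfl fun t _ => ?_
  push_cast
  rw [← Finset.sum_sub_distrib, Finset.mul_sum]
  refine Finset.sum_congr rfl fun i _ => ?_
  ring

theorem shiftPoly_irr {R : Polynomial ℝ} {s : ℕ} {x y : Fin s → ℕ} {d : ℕ} (hd : s + 1 ≤ d)
    (hR : Irrational (R.coeff d)) (h : ∃ j, j ≤ s ∧ ∑ i, x i ^ j ≠ ∑ i, y i ^ j) :
    ∃ i, 1 ≤ i ∧ Irrational ((shiftPoly R x y).coeff i) := by
  classical
  -- the largest irrational coefficient
  set T := (Finset.range (R.natDegree + 1)).filter (fun t => Irrational (R.coeff t)) with hT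
  have hdT : d ∈ T := by
    rw [hT, Finset.mem_filter, Finset.mem_range]
    refine ⟨?_, hR⟩
    by_contra hcon
    have h1 : R.coeff d = 0 := Polynomial.coeff_eq_zero_of_natDegree_lt (by omega)
    rw [h1] at hR
    exact not_irrational_zero hR
  have hne : T.Nonempty := ⟨d, hdT⟩
  set d' := T.max' hne with hd'
  have hd'T : d' ∈ T := T.max'_mem hne
  have hdd' : d ≤ d' := T.le_max' d hdT
  have hmax : ∀ t ∈ Finset.range (R.natDegree + 1), d' < t → ¬ Irrational (R.coeff t) := by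
    intro t ht hlt hirr
    have h1 : t ∈ T := by
      rw [hT, Finset.mem_filter]
      exact ⟨ht, hirr⟩
    exact absurd (T.le_max' t h1) (not_le.2 hlt)
  -- the smallest power sum
  have hex : ∃ j, ∑ i, x i ^ j ≠ ∑ i, y i ^ j := by
    obtain ⟨j, _, hj⟩ := h
    exact ⟨j, hj⟩
  set j := Nat.find hex with hj
  have hjne : ∑ i, x i ^ j ≠ ∑ i, y i ^ j := Nat.find_spec hex
  have hjmin : ∀ u < j, ∑ i, x i ^ u = ∑ i, y i ^ u := by
    intro u hu
    have h1 := Nat.find_min hex hu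
    exact not_not.1 h1
  have hjs : j ≤ s := by
    obtain ⟨u, hu1, hu2⟩ := h
    exact (Nat.find_min' hex hu2).trans hu1
  have hj1 : 1 ≤ j := by
    by_contra hcon
    have h0 : j = 0 := by omega
    apply hjne
    rw [h0]
    simp
  rw [hT, Finset.mem_filter] at hd'T
  obtain ⟨hd'r, hd'i⟩ := hd'T
  refine ⟨d' - j, by omega, ?_⟩
  set m := d' - j with hm
  have hmd : m ≤ d' := by omega
  rw [Coef_shift]
  set σ : ℕ → ℤ := fun u => ∑ i, (x i : ℤ) ^ u - ∑ i, (y i : ℤ) ^ u with hσ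
  have hσ0 : ∀ u < j, σ u = 0 := by
    intro u hu
    have h1 := hjmin u hu
    have h2 : ∑ i, (x i : ℤ) ^ u = ∑ i, (y i : ℤ) ^ u := by exact_mod_cast h1
    rw [hσ]
    simp only
    rw [h2, sub_self]
  have hσj : σ j ≠ 0 := by
    intro h0
    apply hjne
    have h2 : ∑ i, (x i : ℤ) ^ j = ∑ i, (y i : ℤ) ^ j := sub_eq_zero.1 h0
    exact_mod_cast h2
  change Irrational (∑ t ∈ Finset.range (R.natDegree + 1), ((t.choose m : ℕ) : ℝ) * R.coeff t *
        ((σ (t - m) : ℤ) : ℝ))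
  rw [← Finset.add_sum_erase _ _ hd'r]
  have hrat : ∃ q : ℚ, (q : ℝ) = ∑ t ∈ (Finset.range (R.natDegree + 1)).erase d',
      ((t.choose m : ℕ) : ℝ) * R.coeff t * ((σ (t - m) : ℤ) : ℝ) := by
    have h1 : ∑ t ∈ (Finset.range (R.natDegree + 1)).erase d',
      ((t.choose m : ℕ) : ℝ) * R.coeff t * ((σ (t - m) : ℤ) : ℝ) ∈ (Rat.castHom ℝ).range := by
      apply Subring.sum_mem
      intro t ht
      rw [Finset.mem_erase] at ht
      rcases Nat.lt_or_ge d' t with hlt | hge
      · have h2 := hmax t ht.2 hlt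
        rw [Irrational, not_not] at h2
        obtain ⟨q, hq⟩ := h2
        refine ⟨(t.choose m : ℚ) * q * (σ (t - m) : ℚ), ?_⟩
        rw [← hq]
        simp
      · have h4 : t ≠ d' := ht.1
        have h3 : σ (t - m) = 0 := hσ0 _ (by omega)
        rw [h3, Int.cast_zero, mul_zero]
        exact Subring.zero_mem _
    obtain ⟨q, hq⟩ := h1
    exact ⟨q, hq⟩
  obtain ⟨q, hq⟩ := hrat
  rw [← hq]
  refine Irrational.add_ratCast q ?_
  have h5 : d' - m = j := by omega
  rw [h5]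
  have h6 : ((d'.choose m : ℕ) : ℝ) * R.coeff d' * ((σ j : ℤ) : ℝ)
      = ((((d'.choose m : ℕ) : ℤ) * σ j : ℤ) : ℝ) * R.coeff d' := by
    push_cast
    ring
  rw [h6]
  refine hd'i.intCast_mul ?_
  refine mul_ne_zero ?_ hσj
  exact_mod_cast (Nat.choose_pos hmd).ne'

/-- the phases of the criterion of Kátai: `P (p X) ± P (r X)` plus a constant -/
theorem pair_irr {P : Polynomial ℝ} {d : ℕ} (hd : 1 ≤ d) (hP : Irrational (P.coeff d)) {p r : ℕ}
    (hp : 1 ≤ p) (hpr : p < r) {c : ℝ} (hc : c = 1 ∨ c = -1) (a : ℝ) :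
    Irrational ((P.comp (Polynomial.C (p : ℝ) * Polynomial.X) +
      Polynomial.C c * P.comp (Polynomial.C (r : ℝ) * Polynomial.X) +
      Polynomial.C a).coeff d) := by
  rw [Polynomial.coeff_add, Polynomial.coeff_add, Polynomial.coeff_C_mul,
    Polynomial.comp_C_mul_X_coeff, Polynomial.comp_C_mul_X_coeff, Polynomial.coeff_C,
    if_neg (by omega), add_zero]
  have hlt : p ^ d < r ^ d := Nat.pow_lt_pow_left hpr (by omega)
  have hp0 : 0 < p ^ d := pow_pos (by omega) d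
  rcases hc with rfl | rfl
  · have h1 : P.coeff d * (p : ℝ) ^ d + 1 * (P.coeff d * (r : ℝ) ^ d)
        = (((p : ℤ) ^ d + (r : ℤ) ^ d : ℤ) : ℝ) * P.coeff d := by
      push_cast
      ring
    rw [h1]
    refine hP.intCast_mul ?_
    have h2 : (0 : ℤ) < (p : ℤ) ^ d := by exact_mod_cast hp0
    have h3 : (0 : ℤ) ≤ (r : ℤ) ^ d := by positivity
    omega
  · have h1 : P.coeff d * (p : ℝ) ^ d + -1 * (P.coeff d * (r : ℝ) ^ d)
        = (((p : ℤ) ^ d - (r : ℤ) ^ d : ℤ) : ℝ) * P.coeff d := by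
      push_cast
      ring
    rw [h1]
    refine hP.intCast_mul ?_
    have h2 : (p : ℤ) ^ d < (r : ℤ) ^ d := by exact_mod_cast hlt
    omega

end Pool.Agent.Lib.MP_3e612f_nt.HD
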