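import Pool.Agent.Lib.MP_3e612f_nt.HD.Defs

/-!
HD, section Cover: small topological entropy gives few orbit segments.

PROOF. Mathlib: `Dynamics.coverEntropy T F = ⨆ U ∈ 𝓤 X, coverEntropyEntourage T F U` with
`coverEntropyEntourage T F U = expGrowthSup (fun n => coverMincard T F U n)` (a limsup of
`log (coverMincard T F U n) / n` in `EReal`). For `U = {(x, y) | dist x y < δ}` (symmetric
entourage) the growth rate is `≤ coverEntropy < h`, so for all large `L` the minimal cardinality of
an `(U, L)` dynamical cover is `≤ exp (h L)` (finite by compactness: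
`Dynamics.exists_isDynCoverOf_of_isCompact_invariant` or the like); a minimal cover `F`
(`Dynamics.coverMincard_finite_iff`, `IsDynCoverOf`, `ball`/`dynEntourage`) satisfies
`dist (T^[a] x) (T^[a] y) < δ` for all `a < L` for some `y ∈ F`, for every `x`.
-/

set_option autoImplicit false

namespace Pool.Agent.Lib.MP_3e612f_nt.HD

open Dynamics in
theorem cover {X : Type} [MetricSpace X] [CompactSpace X] {T : X → X} (hT : Continuous T) {h : ℝ}
    (hh : Dynamics.coverEntropy T Set.univ < (h : EReal)) {δ : ℝ} (hδ : 0 < δ) :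
    ∃ L0 : ℕ, ∀ L ≥ L0, ∃ F : Finset X, (F.card : ℝ) ≤ Real.exp (h * L) ∧ Cov T L δ F := by
  have hU : {p : X × X | dist p.1 p.2 < δ} ∈ uniformity X := Metric.dist_mem_uniformity hδ
  have h1 : ExpGrowth.expGrowthSup
      (fun n : ℕ => ((coverMincard T Set.univ {p : X × X | dist p.1 p.2 < δ} n : ℕ∞) : ENNReal))
      < (h : EReal) :=
    lt_of_le_of_lt (coverEntropyEntourage_le_coverEntropy T Set.univ hU) hh
  obtain ⟨L0, hL0⟩ := Filter.eventually_atTop.1 (ExpGrowth.eventually_le_exp h1)
  refine ⟨L0, fun L hL => ?_⟩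
  have h2 := hL0 L hL
  have hfin := coverMincard_finite_of_isCompact_invariant (T := T) isCompact_univ
    (Set.mapsTo_univ T Set.univ) hU L
  obtain ⟨s, hs, hcard⟩ := (coverMincard_finite_iff T Set.univ _ L).1 hfin
  refine ⟨s, ?_, ?_⟩
  · rw [← hcard] at h2
    have h3 : ((h : EReal) * (L : EReal)) = ((h * (L : ℝ) : ℝ) : EReal) := by
      push_cast
      rfl
    rw [h3, EReal.exp_coe] at h2
    have h4 : ((s.card : ℕ∞) : ENNReal) = ENNReal.ofReal (s.card : ℝ) := by simp
    rw [h4] at h2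
    exact (ENNReal.ofReal_le_ofReal_iff (Real.exp_pos _).le).1 h2
  · intro x
    obtain ⟨y, hy, hxy⟩ := hs (Set.mem_univ x)
    refine ⟨y, hy, ?_⟩
    have h5 : ∀ a < L, (T^[a] x, T^[a] y) ∈ {p : X × X | dist p.1 p.2 < δ} := by
      exact mem_dynEntourage.1 hxy
    calc ∑ a ∈ Finset.range L, dist (T^[a] x) (T^[a] y) ≤ ∑ a ∈ Finset.range L, δ :=
          Finset.sum_le_sum fun a ha => (h5 a (Finset.mem_range.1 ha)).le
      _ = δ * L := by simp [mul_comm]

end Pool.Agent.Lib.MP_3e612f_nt.HD
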