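import Mathlib

/-!
Polynomial phases of high degree against systems of small entropy: definitions.
-/

set_option autoImplicit false

namespace Pool.Agent.Lib.MP_3e612f_nt.HD

/-- `e(t) = exp (2 π i t)` -/
noncomputable def ex (t : ℝ) : ℂ := Complex.exp (2 * Real.pi * Complex.I * t)

/-- the polynomial `∑ i, (R (X + x i) - R (X + y i))` -/
noncomputable def shiftPoly (R : Polynomial ℝ) {s : ℕ} (x y : Fin s → ℕ) : Polynomial ℝ :=
  ∑ i, (Polynomial.taylor (x i : ℝ) R - Polynomial.taylor (y i : ℝ) R)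

/-- every orbit segment of length `L` is on average `δ`-close to the orbit segment of a point of
`F` -/
def Cov {X : Type} [MetricSpace X] (T : X → X) (L : ℕ) (δ : ℝ) (F : Finset X) : Prop :=
  ∀ x : X, ∃ y ∈ F, ∑ a ∈ Finset.range L, dist (T^[a] x) (T^[a] y) ≤ δ * L

theorem ex_add (s t : ℝ) : ex (s + t) = ex s * ex t := by
  unfold ex
  rw [← Complex.exp_add]
  congr 1
  push_cast
  ring

theorem norm_ex (t : ℝ) : ‖ex t‖ = 1 := by
  unfold ex
  have : (2 * (Real.pi : ℂ) * Complex.I * (t : ℂ)) = ((2 * Real.pi * t : ℝ) : ℂ) * Complex.I := by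
    push_cast; ring
  rw [this, Complex.norm_exp_ofReal_mul_I]

theorem conj_ex (t : ℝ) : (starRingEnd ℂ) (ex t) = ex (-t) := by
  unfold ex
  rw [← Complex.exp_conj]
  congr 1
  simp only [map_mul, Complex.conj_ofReal, Complex.conj_I, map_ofNat]
  push_cast
  ring

theorem ex_zero : ex 0 = 1 := by simp [ex]

theorem ex_sum {ι : Type*} (s : Finset ι) (a : ι → ℝ) : ex (∑ i ∈ s, a i) = ∏ i ∈ s, ex (a i) := by
  classical
  induction s using Finset.induction_on with
  | empty => simp [ex_zero]
  | insert i s hi ih => rw [Finset.sum_insert hi, Finset.prod_insert hi, ex_add, ih]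

end Pool.Agent.Lib.MP_3e612f_nt.HD
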