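import Pool.Agent.Lib.MP_3e612f_nt.HD.Main

/-!
HD, section Final: systems of small entropy and systems of polynomial complexity.
-/

set_option autoImplicit false

namespace Pool.Agent.Lib.MP_3e612f_nt.HD

open Pool.Agent.Lib.MP_3e612f_nt

theorem final_entropy {ε : ℝ} (hε : 0 < ε) : ∃ h : ℝ, 0 < h ∧
    ∀ (X : Type) [MetricSpace X] [CompactSpace X] (T : X → X), Continuous T →
      Dynamics.coverEntropy T Set.univ < (h : EReal) →
      ∀ f : X → ℂ, Continuous f → (∀ x, ‖f x‖ ≤ 1) →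
      ∃ D : ℕ, ∀ (P : Polynomial ℝ) (d : ℕ), D ≤ d → Irrational (P.coeff d) →
      ∃ N0 : ℕ, ∀ N ≥ N0, ∀ x : X, ‖(1 / N : ℂ) * ∑ n ∈ Finset.Icc 1 N,
        f (T^[n] x) * (ArithmeticFunction.moebius n : ℂ) *
          Complex.exp (2 * Real.pi * Complex.I * P.eval (n : ℝ))‖ ≤ ε := by
  obtain ⟨r0, τ, hr0, hτ, hmain⟩ := main_f hε
  have hr0' : (0 : ℝ) < r0 := by exact_mod_cast hr0
  obtain ⟨K, hK⟩ := exists_nat_ge (max 1 (Real.exp 1 * (2 * r0) / (τ ^ 2 / 2)))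
  have hK1 : (1 : ℝ) ≤ K := (le_max_left _ _).trans hK
  have hK0 : (0 : ℝ) < K := by linarith
  have hK2 : Real.exp 1 * (2 * r0) ≤ τ ^ 2 / 2 * K := by
    have := (le_max_right _ _).trans hK
    rw [div_le_iff₀ (by positivity)] at this
    linarith
  refine ⟨1 / (2 * K), by positivity, ?_⟩
  intro X _ _ T hT hent f hf hf1
  obtain ⟨δ, hδ, hmain⟩ := hmain X T f hf hf1
  obtain ⟨L0, hcover⟩ := cover hT hent hδ
  set s : ℕ := max L0 r0 with hs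
  have hs1 : 1 ≤ s := hr0.trans (le_max_right _ _)
  have hK1' : 1 ≤ K := by exact_mod_cast hK1
  have hsL : s ≤ K * s := Nat.le_mul_of_pos_left s hK1'
  obtain ⟨F, hF, hcov⟩ := hcover (K * s) ((le_max_left _ _).trans hsL)
  refine ⟨s + 1, fun P d hd hP => ?_⟩
  refine hmain s hs1 (K * s) ((le_max_right _ _).trans hsL) F hcov ?_ P d hd hP
  have hsr : (1 : ℝ) ≤ s := by exact_mod_cast hs1
  have h1 : (F.card : ℝ) ^ 2 ≤ Real.exp 1 ^ s := by
    have h2 : Real.exp (1 / (2 * K) * ((K * s : ℕ) : ℝ)) = Real.exp (s / 2) := by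
      congr 1
      push_cast
      field_simp
    rw [h2] at hF
    calc (F.card : ℝ) ^ 2 ≤ Real.exp (s / 2) ^ 2 := by gcongr
      _ = Real.exp 1 ^ s := by
        rw [← Real.exp_nat_mul, ← Real.exp_nat_mul]
        congr 1
        push_cast
        ring
  have h3 : (s.factorial : ℝ) ≤ (s : ℝ) ^ s := by exact_mod_cast Nat.factorial_le_pow s
  calc (F.card : ℝ) ^ 2 * (s.factorial * (2 * r0 : ℝ) ^ s)
      ≤ Real.exp 1 ^ s * ((s : ℝ) ^ s * (2 * r0 : ℝ) ^ s) := by gcongr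
    _ = (Real.exp 1 * (2 * r0)) ^ s * (s : ℝ) ^ s := by
        rw [mul_pow]; ring
    _ ≤ (τ ^ 2 / 2 * K) ^ s * (s : ℝ) ^ s := by gcongr
    _ = τ ^ (2 * s) * (1 / 2) ^ s * (K * s : ℝ) ^ s := by
        rw [pow_mul, mul_pow, mul_pow, div_eq_mul_one_div, mul_pow]
        ring
    _ ≤ τ ^ (2 * s) * (1 / 2) ^ 1 * (K * s : ℝ) ^ s := by
        have : ((1 : ℝ) / 2) ^ s ≤ (1 / 2) ^ 1 :=
          pow_le_pow_of_le_one (by norm_num) (by norm_num) hs1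
        gcongr
    _ = τ ^ (2 * s) / 2 * ((K * s : ℕ) : ℝ) ^ s := by
        push_cast
        ring

theorem final_poly {X : Type} [MetricSpace X] [CompactSpace X] (T : X → X) {k : ℝ} (hk : 0 < k)
    (hc : ∀ δ : ℝ, 0 < δ → ∀ κ : ℝ, 0 < κ → ∃ L : ℕ, 1 ≤ L ∧ ∃ F : Finset X,
      (F.card : ℝ) ≤ κ * (L : ℝ) ^ k ∧
        ∀ x : X, ∃ y ∈ F, ∑ a ∈ Finset.range L, dist (T^[a] x) (T^[a] y) ≤ δ * L)
    (f : X → ℂ) (hf : Continuous f) (P : Polynomial ℝ) (d : ℕ) (hd : 2 * k + 1 ≤ d)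
    (hP : Irrational (P.coeff d)) {ε : ℝ} (hε : 0 < ε) :
    ∃ N0 : ℕ, ∀ N ≥ N0, ∀ x : X, ‖(1 / N : ℂ) * ∑ n ∈ Finset.Icc 1 N,
        f (T^[n] x) * (ArithmeticFunction.moebius n : ℂ) *
          Complex.exp (2 * Real.pi * Complex.I * P.eval (n : ℝ))‖ ≤ ε := by
  rcases isEmpty_or_nonempty X with hX | hX
  · exact ⟨0, fun N _ x => (hX.false x).elim⟩
  obtain ⟨M, hM1, hM⟩ : ∃ M : ℝ, 1 ≤ M ∧ ∀ x, ‖f x‖ ≤ M := by
    obtain ⟨C, hC⟩ := isCompact_univ.exists_bound_of_continuousOn hf.continuousOn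
    exact ⟨max 1 C, le_max_left _ _, fun x => (hC x (Set.mem_univ x)).trans (le_max_right _ _)⟩
  have hM0 : 0 < M := by linarith
  obtain ⟨r0, τ, hr0, hτ, hmain⟩ := main_f (ε := ε / M) (by positivity)
  have hr0' : (0 : ℝ) < r0 := by exact_mod_cast hr0
  obtain ⟨δ, hδ, hmain⟩ := hmain X T (fun x => f x / M) (hf.div_const _) (fun x => by
    rw [norm_div, Complex.norm_real, Real.norm_of_nonneg hM0.le, div_le_one hM0]
    exact hM x)
  set s : ℕ := ⌈2 * k⌉₊ with hs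
  have hs1 : 1 ≤ s := Nat.ceil_pos.2 (by positivity)
  have hsd : s + 1 ≤ d := by
    have h1 : 1 ≤ d := by
      have : (1 : ℝ) ≤ d := by linarith
      exact_mod_cast this
    have h2 : s ≤ d - 1 := by
      rw [hs, Nat.ceil_le]
      push_cast [h1]
      linarith
    omega
  set c : ℝ := τ ^ (2 * s) / 2 / (s.factorial * (2 * r0 : ℝ) ^ s) with hcdef
  have hc0 : 0 < c := by positivity
  set κ : ℝ := min (1 / (2 * (r0 : ℝ) ^ k)) (min 1 c) with hκ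
  have hκ0 : 0 < κ := by positivity
  obtain ⟨L, hL, F, hF, hcov⟩ := hc δ hδ κ hκ0
  have hLr : (1 : ℝ) ≤ L := by exact_mod_cast hL
  have hLr0 : r0 ≤ L := by
    by_contra hcon
    have hlt : (L : ℝ) ≤ r0 := by exact_mod_cast (not_le.1 hcon).le
    have h1 : (1 : ℝ) ≤ F.card := by
      obtain ⟨y, hy, -⟩ := hcov (Classical.arbitrary X)
      exact_mod_cast Finset.card_pos.2 ⟨y, hy⟩
    have h2 : κ * (L : ℝ) ^ k ≤ 1 / (2 * (r0 : ℝ) ^ k) * (r0 : ℝ) ^ k := by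
      have := Real.rpow_le_rpow (by positivity) hlt hk.le
      have h3 : κ ≤ 1 / (2 * (r0 : ℝ) ^ k) := min_le_left _ _
      gcongr
    have h4 : 1 / (2 * (r0 : ℝ) ^ k) * (r0 : ℝ) ^ k = 1 / 2 := by
      have : (0 : ℝ) < (r0 : ℝ) ^ k := Real.rpow_pos_of_pos hr0' k
      field_simp
    linarith
  have hcond : (F.card : ℝ) ^ 2 * (s.factorial * (2 * r0 : ℝ) ^ s) ≤
      τ ^ (2 * s) / 2 * (L : ℝ) ^ s := by
    have h1 : (F.card : ℝ) ^ 2 ≤ κ * (L : ℝ) ^ s := by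
      have hκ1 : κ ≤ 1 := (min_le_right _ _).trans (min_le_left _ _)
      have h2 : ((L : ℝ) ^ k) ^ 2 ≤ (L : ℝ) ^ s := by
        rw [← Real.rpow_natCast, ← Real.rpow_mul (by positivity), ← Real.rpow_natCast]
        refine Real.rpow_le_rpow_of_exponent_le hLr ?_
        have := Nat.le_ceil (2 * k)
        push_cast
        linarith
      calc (F.card : ℝ) ^ 2 ≤ (κ * (L : ℝ) ^ k) ^ 2 := by gcongr
        _ = κ * (κ * ((L : ℝ) ^ k) ^ 2) := by ring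
        _ ≤ κ * (1 * (L : ℝ) ^ s) := by gcongr
        _ = κ * (L : ℝ) ^ s := by ring
    have h3 : κ ≤ c := (min_le_right _ _).trans (min_le_right _ _)
    calc (F.card : ℝ) ^ 2 * (s.factorial * (2 * r0 : ℝ) ^ s)
        ≤ (κ * (L : ℝ) ^ s) * (s.factorial * (2 * r0 : ℝ) ^ s) := by gcongr
      _ ≤ (c * (L : ℝ) ^ s) * (s.factorial * (2 * r0 : ℝ) ^ s) := by gcongr
      _ = τ ^ (2 * s) / 2 * (L : ℝ) ^ s := by
        rw [hcdef]
        field_simp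
  obtain ⟨N0, hN0⟩ := hmain s hs1 L hLr0 F hcov hcond P d hsd hP
  refine ⟨N0, fun N hN x => ?_⟩
  have h1 := hN0 N hN x
  have h2 : (1 / N : ℂ) * ∑ n ∈ Finset.Icc 1 N,
        f (T^[n] x) * (ArithmeticFunction.moebius n : ℂ) *
          Complex.exp (2 * Real.pi * Complex.I * P.eval (n : ℝ)) =
      (M : ℂ) * ((1 / N : ℂ) * ∑ n ∈ Finset.Icc 1 N,
        f (T^[n] x) / M * (ArithmeticFunction.moebius n : ℂ) *
          Complex.exp (2 * Real.pi * Complex.I * P.eval (n : ℝ))) := by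
    have hMc : (M : ℂ) ≠ 0 := by exact_mod_cast hM0.ne'
    rw [mul_left_comm]
    congr 1
    rw [Finset.mul_sum]
    refine Finset.sum_congr rfl fun n _ => ?_
    field_simp
  rw [h2, norm_mul, Complex.norm_real, Real.norm_of_nonneg hM0.le]
  refine (mul_le_mul_of_nonneg_left h1 hM0.le).trans (le_of_eq ?_)
  field_simp

/-- both statements with one threshold `D` -/
theorem final {ε : ℝ} (hε : 0 < ε) : ∃ h : ℝ, 0 < h ∧
    ∀ (X : Type) [MetricSpace X] [CompactSpace X] (T : X → X), Continuous T →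
      Dynamics.coverEntropy T Set.univ < (h : EReal) →
      ∀ f : X → ℂ, Continuous f → (∀ x, ‖f x‖ ≤ 1) →
      ∃ D : ℕ,
        (∀ P : Polynomial ℝ, (∃ d ≥ D, Irrational (P.coeff d)) →
          ∃ N0 : ℕ, ∀ N ≥ N0, ∀ x : X, ‖(1 / N : ℂ) * ∑ n ∈ Finset.Icc 1 N,
            f (T^[n] x) * (ArithmeticFunction.moebius n : ℂ) *
              Complex.exp (2 * Real.pi * Complex.I * P.eval (n : ℝ))‖ ≤ ε) ∧
        ∀ k : ℝ, 0 < k →
          (∀ δ : ℝ, 0 < δ → ∀ κ : ℝ, 0 < κ → ∃ L : ℕ, 1 ≤ L ∧ ∃ F : Finset X,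
            (F.card : ℝ) ≤ κ * (L : ℝ) ^ k ∧
            ∀ x : X, ∃ y ∈ F, ∑ a ∈ Finset.range L, dist (T^[a] x) (T^[a] y) ≤ δ * L) →
          D ≤ ⌈2 * k⌉₊ + 1 := by
  classical
  obtain ⟨h, hh, H⟩ := final_entropy hε
  refine ⟨h, hh, ?_⟩
  intro X _ _ T hT hent f hf hf1
  have hex : ∃ D : ℕ, ∀ P : Polynomial ℝ, (∃ d ≥ D, Irrational (P.coeff d)) →
          ∃ N0 : ℕ, ∀ N ≥ N0, ∀ x : X, ‖(1 / N : ℂ) * ∑ n ∈ Finset.Icc 1 N,
            f (T^[n] x) * (ArithmeticFunction.moebius n : ℂ) *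
              Complex.exp (2 * Real.pi * Complex.I * P.eval (n : ℝ))‖ ≤ ε := by
    obtain ⟨D, hD⟩ := H X T hT hent f hf hf1
    exact ⟨D, fun P ⟨d, hd, hP⟩ => hD P d hd hP⟩
  refine ⟨Nat.find hex, Nat.find_spec hex, fun k hk hc => Nat.find_min' hex ?_⟩
  rintro P ⟨d, hd, hP⟩
  refine final_poly T hk hc f hf P d ?_ hP hε
  have h1 := Nat.le_ceil (2 * k)
  have h2 : ((⌈2 * k⌉₊ + 1 : ℕ) : ℝ) ≤ d := by exact_mod_cast hd
  push_cast at h2
  linarith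

end Pool.Agent.Lib.MP_3e612f_nt.HD
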