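import Pool.Agent.Lib.MP_3e612f_nt.HD.Pair
import Pool.Agent.Lib.MP_3e612f_nt.HD.Cover
import Pool.Agent.Lib.MP_3e612f_nt.PB.KatFin

/-!
HD, section Main.

`main_cos`: from `PB.katai_fin` with `A = 1`, `P0 = 0` and `ε`: a finite set `S` of primes and
`δ₁ > 0`; `r0` = the largest element of `S` (at least 1), `τ = δ₁ / 4`, `η = δ₁ / 4`; `δ` = the
minimum of the `δ` of `pair_cos` for the `r ∈ S` (`Cov` is monotone in `δ`; the condition on
`card F` for `r0` implies the one for `r ≤ r0`).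
`main_f`: `f = a + i b`, `e (P) = cos (2 π P) + i cos (2 π (P - 1/4))`: four real sums.
-/

set_option autoImplicit false

namespace Pool.Agent.Lib.MP_3e612f_nt.HD

open Pool.Agent.Lib.MP_3e612f_nt

theorem main_cos {ε : ℝ} (hε : 0 < ε) : ∃ (r0 : ℕ) (τ : ℝ), 1 ≤ r0 ∧ 0 < τ ∧
    ∀ (X : Type) [MetricSpace X] [CompactSpace X] (T : X → X) (u : X → ℝ), Continuous u →
      (∀ x, |u x| ≤ 1) → ∃ δ : ℝ, 0 < δ ∧ ∀ s : ℕ, 1 ≤ s → ∀ L : ℕ, r0 ≤ L →
      ∀ F : Finset X, Cov T L δ F →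
      (F.card : ℝ) ^ 2 * (s.factorial * (2 * r0 : ℝ) ^ s) ≤ τ ^ (2 * s) / 2 * (L : ℝ) ^ s →
      ∀ (P : Polynomial ℝ) (d : ℕ), s + 1 ≤ d → Irrational (P.coeff d) → ∀ θ : ℝ,
      ∃ N0 : ℕ, ∀ N ≥ N0, ∀ x : X, |∑ n ∈ Finset.Icc 1 N, mu n *
        (u (T^[n] x) * Real.cos (2 * Real.pi * (P.eval (n : ℝ) + θ)))| ≤ ε * N := by
  obtain ⟨S, δ₁, N1, hS, hδ₁, hK⟩ := PB.katai_fin (A := 1) le_rfl 0 hε
  refine ⟨max 1 (S.sup id), δ₁ / 4, le_max_left _ _, by positivity, ?_⟩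
  intro X _ _ T u hu hu1
  have hpc := fun r : ℕ => pair_cos hu hu1 T r (η := δ₁ / 4) (by positivity)
  choose δf hδf hpc using hpc
  obtain ⟨δ, hδS, hδ0⟩ : ∃ δ : ℝ, (∀ r ∈ S, δ ≤ δf r) ∧ 0 < δ := by
    have h1 : ∀ᶠ δ in nhdsWithin (0 : ℝ) (Set.Ioi 0), ∀ r ∈ S, δ ≤ δf r :=
      (Filter.eventually_all_finset S).2 fun r _ =>
        eventually_nhdsWithin_of_eventually_nhds (eventually_le_nhds (hδf r))
    exact (h1.and self_mem_nhdsWithin).exists
  refine ⟨δ, hδ0, ?_⟩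
  intro s hs L hL F hcov hF P d hd hP θ
  have key : ∀ᶠ N : ℕ in Filter.atTop, ∀ r ∈ S, ∀ p ∈ S, p < r → ∀ x : X,
      |∑ m ∈ Finset.Icc 1 (N / r),
        (u (T^[p * m] x) * Real.cos (2 * Real.pi * (P.eval ((p * m : ℕ) : ℝ) + θ))) *
        (u (T^[r * m] x) * Real.cos (2 * Real.pi * (P.eval ((r * m : ℕ) : ℝ) + θ)))| ≤
        (δ₁ / 4 + 2 * (δ₁ / 4)) * N := by
    refine (Filter.eventually_all_finset S).2 fun r hr => ?_
    refine (Filter.eventually_all_finset S).2 fun p hp => ?_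
    by_cases hpr : p < r
    · have hr0 : r ≤ max 1 (S.sup id) := le_trans (Finset.le_sup (f := id) hr) (le_max_right _ _)
      obtain ⟨N0, hN0⟩ := hpc r p (hS p hp).1.one_le hpr s hs (δ₁ / 4) (by positivity) L
        (hr0.trans hL) F (by
          intro x
          obtain ⟨y, hy, hxy⟩ := hcov x
          exact ⟨y, hy, hxy.trans (mul_le_mul_of_nonneg_right (hδS r hr) (Nat.cast_nonneg _))⟩)
        (by
          refine le_trans ?_ hF
          have : (r : ℝ) ≤ ((max 1 (S.sup id) : ℕ) : ℝ) := by exact_mod_cast hr0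
          gcongr) P d hd hP θ
      exact Filter.eventually_atTop.2 ⟨N0, fun N hN _ => hN0 N hN⟩
    · exact Filter.Eventually.of_forall fun N h => absurd h hpr
  obtain ⟨N0, hN0⟩ := Filter.eventually_atTop.1 key
  refine ⟨max N0 N1, fun N hN x => ?_⟩
  refine hK N ((le_max_right _ _).trans hN)
    (fun n => u (T^[n] x) * Real.cos (2 * Real.pi * (P.eval (n : ℝ) + θ))) ?_ ?_
  · intro n
    show |u (T^[n] x) * Real.cos (2 * Real.pi * (P.eval (n : ℝ) + θ))| ≤ 1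
    rw [abs_mul]
    exact mul_le_one₀ (hu1 _) (abs_nonneg _) (Real.abs_cos_le_one _)
  · intro p hp r hr hpr
    refine (hN0 N ((le_max_left _ _).trans hN) r hr p hp hpr x).trans ?_
    have : (0 : ℝ) ≤ N := Nat.cast_nonneg _
    nlinarith

/-- the same for complex functions bounded by one and the complex exponential -/
theorem main_f {ε : ℝ} (hε : 0 < ε) : ∃ (r0 : ℕ) (τ : ℝ), 1 ≤ r0 ∧ 0 < τ ∧
    ∀ (X : Type) [MetricSpace X] [CompactSpace X] (T : X → X) (f : X → ℂ), Continuous f →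
      (∀ x, ‖f x‖ ≤ 1) → ∃ δ : ℝ, 0 < δ ∧ ∀ s : ℕ, 1 ≤ s → ∀ L : ℕ, r0 ≤ L →
      ∀ F : Finset X, Cov T L δ F →
      (F.card : ℝ) ^ 2 * (s.factorial * (2 * r0 : ℝ) ^ s) ≤ τ ^ (2 * s) / 2 * (L : ℝ) ^ s →
      ∀ (P : Polynomial ℝ) (d : ℕ), s + 1 ≤ d → Irrational (P.coeff d) →
      ∃ N0 : ℕ, ∀ N ≥ N0, ∀ x : X, ‖(1 / N : ℂ) * ∑ n ∈ Finset.Icc 1 N,
        f (T^[n] x) * (ArithmeticFunction.moebius n : ℂ) *
          Complex.exp (2 * Real.pi * Complex.I * P.eval (n : ℝ))‖ ≤ ε := by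
  obtain ⟨r0, τ, hr0, hτ, hmain⟩ := main_cos (ε := ε / 4) (by positivity)
  refine ⟨r0, τ, hr0, hτ, ?_⟩
  intro X _ _ T f hf hf1
  obtain ⟨δa, hδa, ha⟩ := hmain X T (fun x => (f x).re) (Complex.continuous_re.comp hf)
    (fun x => (Complex.abs_re_le_norm _).trans (hf1 x))
  obtain ⟨δb, hδb, hb⟩ := hmain X T (fun x => (f x).im) (Complex.continuous_im.comp hf)
    (fun x => (Complex.abs_im_le_norm _).trans (hf1 x))
  refine ⟨min δa δb, lt_min hδa hδb, ?_⟩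
  intro s hs L hL F hcov hF P d hd hP
  have hca : Cov T L δa F := fun x => by
    obtain ⟨y, hy, hxy⟩ := hcov x
    exact ⟨y, hy, hxy.trans (mul_le_mul_of_nonneg_right (min_le_left _ _) (Nat.cast_nonneg _))⟩
  have hcb : Cov T L δb F := fun x => by
    obtain ⟨y, hy, hxy⟩ := hcov x
    exact ⟨y, hy, hxy.trans (mul_le_mul_of_nonneg_right (min_le_right _ _) (Nat.cast_nonneg _))⟩
  obtain ⟨N1, h1⟩ := ha s hs L hL F hca hF P d hd hP 0
  obtain ⟨N2, h2⟩ := ha s hs L hL F hca hF P d hd hP (-(1 / 4))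
  obtain ⟨N3, h3⟩ := hb s hs L hL F hcb hF P d hd hP 0
  obtain ⟨N4, h4⟩ := hb s hs L hL F hcb hF P d hd hP (-(1 / 4))
  refine ⟨max (max (max N1 N2) (max N3 N4)) 1, fun N hN x => ?_⟩
  have hN1 : N1 ≤ N := by omega
  have hN2 : N2 ≤ N := by omega
  have hN3 : N3 ≤ N := by omega
  have hN4 : N4 ≤ N := by omega
  have hN0 : 1 ≤ N := by omega
  have hNr : (0 : ℝ) < N := by exact_mod_cast hN0
  have g1 := h1 N hN1 x
  have g2 := h2 N hN2 x
  have g3 := h3 N hN3 x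
  have g4 := h4 N hN4 x
  set S1 : ℝ := ∑ n ∈ Finset.Icc 1 N, mu n *
        ((f (T^[n] x)).re * Real.cos (2 * Real.pi * (P.eval (n : ℝ) + 0))) with hS1
  set S2 : ℝ := ∑ n ∈ Finset.Icc 1 N, mu n *
        ((f (T^[n] x)).re * Real.cos (2 * Real.pi * (P.eval (n : ℝ) + -(1 / 4)))) with hS2
  set S3 : ℝ := ∑ n ∈ Finset.Icc 1 N, mu n *
        ((f (T^[n] x)).im * Real.cos (2 * Real.pi * (P.eval (n : ℝ) + 0))) with hS3
  set S4 : ℝ := ∑ n ∈ Finset.Icc 1 N, mu n *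
        ((f (T^[n] x)).im * Real.cos (2 * Real.pi * (P.eval (n : ℝ) + -(1 / 4)))) with hS4
  have hsum : ∑ n ∈ Finset.Icc 1 N,
        f (T^[n] x) * (ArithmeticFunction.moebius n : ℂ) *
          Complex.exp (2 * Real.pi * Complex.I * P.eval (n : ℝ)) =
      (S1 : ℂ) + Complex.I * S2 + Complex.I * S3 - S4 := by
    rw [hS1, hS2, hS3, hS4]
    push_cast
    rw [Finset.mul_sum, Finset.mul_sum, ← Finset.sum_add_distrib, ← Finset.sum_add_distrib,
      ← Finset.sum_sub_distrib]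
    refine Finset.sum_congr rfl fun n _ => ?_
    set t : ℝ := P.eval (n : ℝ) with ht
    have e1 : Complex.exp (2 * Real.pi * Complex.I * t) =
        (Real.cos (2 * Real.pi * (t + 0)) : ℂ) +
          Complex.I * (Real.cos (2 * Real.pi * (t + -(1 / 4))) : ℂ) := by
      have e2 : Real.cos (2 * Real.pi * (t + -(1 / 4))) = Real.sin (2 * Real.pi * t) := by
        rw [← Real.cos_sub_pi_div_two]
        congr 1
        ring
      rw [e2, add_zero]
      have e3 : (2 * Real.pi * Complex.I * t : ℂ) = ((2 * Real.pi * t : ℝ) : ℂ) * Complex.I := by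
        push_cast
        ring
      rw [e3, Complex.exp_mul_I]
      push_cast
      ring
    have e4 : f (T^[n] x) = ((f (T^[n] x)).re : ℂ) + (f (T^[n] x)).im * Complex.I :=
      (Complex.re_add_im _).symm
    have e5 : (ArithmeticFunction.moebius n : ℂ) = (mu n : ℂ) := by
      unfold mu
      push_cast
      rfl
    rw [e1, e5]
    nth_rewrite 1 [e4]
    have hI : Complex.I * Complex.I = -1 := Complex.I_mul_I
    push_cast
    linear_combination ((f (T^[n] x)).im : ℂ) * (mu n : ℂ) *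
      (Complex.cos (2 * Real.pi * (t + -(1 / 4)))) * hI
  rw [hsum]
  have hb1 : ‖(S1 : ℂ) + Complex.I * S2 + Complex.I * S3 - S4‖ ≤ ε * N := by
    calc ‖(S1 : ℂ) + Complex.I * S2 + Complex.I * S3 - S4‖
        ≤ ‖(S1 : ℂ)‖ + ‖Complex.I * (S2 : ℂ)‖ + ‖Complex.I * (S3 : ℂ)‖ + ‖(S4 : ℂ)‖ := by
          refine (norm_sub_le _ _).trans ?_
          gcongr
          refine (norm_add_le _ _).trans ?_
          gcongr
          exact norm_add_le _ _
      _ = |S1| + |S2| + |S3| + |S4| := by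
          simp [Complex.norm_real]
      _ ≤ ε * N := by linarith
  rw [norm_mul]
  have : ‖(1 / N : ℂ)‖ = 1 / N := by simp
  rw [this, one_div, inv_mul_le_iff₀ hNr]
  exact hb1.trans (le_of_eq (mul_comm _ _))

end Pool.Agent.Lib.MP_3e612f_nt.HD
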