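import Pool.Agent.Lib.MP_3e612f_nt.HD.Defs

/-!
HD, section Newton: two `s`-tuples with the same power sums of order `≤ s` are permutations of each
other; the number of such pairs.

PROOF. Newton's identities (`MvPolynomial.mul_esymm_eq_sum` or
`MvPolynomial.sum_antidiagonal_card_esymm_psum_eq_zero`, evaluated at `x`, `y` over `ℚ`) give by
induction that all elementary symmetric functions of order `≤ s` agree, hence
`∏ (X - x_i) = ∏ (X - y_i)` (`Multiset.prod_X_sub_C_...esymm`), hence the multisets
`Finset.univ.val.map x`, `... y` agree (roots), hence `y = x ∘ σ`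
(e.g. `Multiset.map_univ_val_equiv...`/`List.Perm`/`Fintype.card` of fibres).
Count: for every `x` there are at most `s!` tuples `y = x ∘ σ`.
-/

set_option autoImplicit false

namespace Pool.Agent.Lib.MP_3e612f_nt.HD

/-- Equal multisets of values: a permutation. -/
private lemma Newton_perm {s : ℕ} {x y : Fin s → ℕ}
    (h : Finset.univ.val.map x = Finset.univ.val.map y) :
    ∃ σ : Equiv.Perm (Fin s), y = x ∘ σ := by
  have h1 : (List.ofFn x).Perm (List.ofFn y) := by
    apply Multiset.coe_eq_coe.1
    rw [← Fin.univ_val_map, ← Fin.univ_val_map]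
    exact h
  have h2 : x ∘ Tuple.sort x = y ∘ Tuple.sort y := by
    apply List.ofFn_injective
    exact (((Tuple.sort x).ofFn_comp_perm x).trans
      (h1.trans ((Tuple.sort y).ofFn_comp_perm y).symm)).eq_of_pairwise'
      (Tuple.monotone_sort x).sortedLE_ofFn.pairwise (Tuple.monotone_sort y).sortedLE_ofFn.pairwise
  refine ⟨(Tuple.sort y).symm.trans (Tuple.sort x), ?_⟩
  funext i
  have h3 := congrFun h2 ((Tuple.sort y).symm i)
  simp only [Function.comp_apply, Equiv.apply_symm_apply] at h3
  rw [Function.comp_apply, Equiv.trans_apply]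
  exact h3.symm

theorem psum_perm {s : ℕ} {x y : Fin s → ℕ} (h : ∀ j ≤ s, ∑ i, x i ^ j = ∑ i, y i ^ j) :
    ∃ σ : Equiv.Perm (Fin s), y = x ∘ σ := by
  set X : Fin s → ℚ := fun i => (x i : ℚ) with hX
  set Y : Fin s → ℚ := fun i => (y i : ℚ) with hY
  have hp : ∀ j ≤ s, MvPolynomial.aeval X (MvPolynomial.psum (Fin s) ℚ j)
      = MvPolynomial.aeval Y (MvPolynomial.psum (Fin s) ℚ j) := by
    intro j hj
    rw [MvPolynomial.psum, map_sum, map_sum]
    simp only [map_pow, MvPolynomial.aeval_X, hX, hY]
    exact_mod_cast h j hj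
  have he : ∀ k, k ≤ s → MvPolynomial.aeval X (MvPolynomial.esymm (Fin s) ℚ k)
      = MvPolynomial.aeval Y (MvPolynomial.esymm (Fin s) ℚ k) := by
    intro k
    induction k using Nat.strong_induction_on with
    | _ k ih =>
      intro hk
      rcases Nat.eq_zero_or_pos k with h0 | h0
      · subst h0
        simp
      · have hN := MvPolynomial.mul_esymm_eq_sum (Fin s) ℚ k
        have hx := congrArg (MvPolynomial.aeval X) hN
        have hy := congrArg (MvPolynomial.aeval Y) hN
        rw [map_mul, map_natCast, map_mul, map_sum] at hx hy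
        have hs : ∑ a ∈ (Finset.HasAntidiagonal.antidiagonal k).filter (fun a : ℕ × ℕ => a.1 < k),
            MvPolynomial.aeval X ((-1) ^ a.1 * MvPolynomial.esymm (Fin s) ℚ a.1 *
              MvPolynomial.psum (Fin s) ℚ a.2) =
            ∑ a ∈ (Finset.HasAntidiagonal.antidiagonal k).filter (fun a : ℕ × ℕ => a.1 < k),
            MvPolynomial.aeval Y ((-1) ^ a.1 * MvPolynomial.esymm (Fin s) ℚ a.1 *
              MvPolynomial.psum (Fin s) ℚ a.2) := by
          refine Finset.sum_congr rfl fun a ha => ?_
          rw [Finset.mem_filter, Finset.HasAntidiagonal.mem_antidiagonal] at ha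
          rw [map_mul, map_mul, map_mul, map_mul, ih a.1 ha.2 (by omega), hp a.2 (by omega)]
          simp only [map_pow, map_neg, map_one]
        rw [hs] at hx
        have hxy : (k : ℚ) * MvPolynomial.aeval X (MvPolynomial.esymm (Fin s) ℚ k)
            = (k : ℚ) * MvPolynomial.aeval Y (MvPolynomial.esymm (Fin s) ℚ k) := by
          rw [hx, hy]
          simp only [map_pow, map_neg, map_one]
        exact mul_left_cancel₀ (by exact_mod_cast h0.ne') hxy
  have hprod : ((Finset.univ.val.map X).map fun t => Polynomial.X - Polynomial.C t).prod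
      = ((Finset.univ.val.map Y).map fun t => Polynomial.X - Polynomial.C t).prod := by
    rw [Multiset.prod_X_sub_X_eq_sum_esymm, Multiset.prod_X_sub_X_eq_sum_esymm,
      Multiset.card_map, Multiset.card_map]
    have hc : Multiset.card (Finset.univ : Finset (Fin s)).val = s := by simp
    rw [hc]
    refine Finset.sum_congr rfl fun j hj => ?_
    rw [Finset.mem_range] at hj
    rw [← MvPolynomial.aeval_esymm_eq_multiset_esymm (Fin s) ℚ,
      ← MvPolynomial.aeval_esymm_eq_multiset_esymm (Fin s) ℚ, he j (by omega)]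
  have hmul : Finset.univ.val.map X = Finset.univ.val.map Y := by
    rw [← Polynomial.roots_multiset_prod_X_sub_C (Finset.univ.val.map X), hprod,
      Polynomial.roots_multiset_prod_X_sub_C]
  apply Newton_perm
  have h1 : (Finset.univ.val.map x).map (Nat.cast : ℕ → ℚ)
      = (Finset.univ.val.map y).map (Nat.cast : ℕ → ℚ) := by
    rw [Multiset.map_map, Multiset.map_map]
    exact hmul
  exact Multiset.map_injective Nat.cast_injective h1

theorem count_le (s L : ℕ) :
    ((Finset.univ : Finset ((Fin s → Fin L) × (Fin s → Fin L))).filter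
      fun q => ∀ j ≤ s, ∑ i, (q.1 i : ℕ) ^ j = ∑ i, (q.2 i : ℕ) ^ j).card ≤ s.factorial * L ^ s := by
  classical
  have h1 : ((Finset.univ : Finset ((Fin s → Fin L) × (Fin s → Fin L))).filter
      fun q => ∀ j ≤ s, ∑ i, (q.1 i : ℕ) ^ j = ∑ i, (q.2 i : ℕ) ^ j) ⊆
      (Finset.univ : Finset (Equiv.Perm (Fin s) × (Fin s → Fin L))).image
        (fun p => (p.2, p.2 ∘ p.1)) := by
    rintro ⟨f, g⟩ hq
    rw [Finset.mem_filter] at hq
    obtain ⟨σ, hσ⟩ := psum_perm (x := fun i => (f i : ℕ)) (y := fun i => (g i : ℕ)) hq.2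
    rw [Finset.mem_image]
    refine ⟨(σ, f), Finset.mem_univ _, ?_⟩
    simp only [Prod.mk.injEq, true_and]
    funext i
    have h2 := congrFun hσ i
    simp only [Function.comp_apply] at h2
    rw [Function.comp_apply]
    exact Fin.ext h2.symm
  refine (Finset.card_le_card h1).trans (Finset.card_image_le.trans ?_)
  rw [Finset.card_univ, Fintype.card_prod, Fintype.card_perm, Fintype.card_fin, Fintype.card_fun,
    Fintype.card_fin, Fintype.card_fin]

end Pool.Agent.Lib.MP_3e612f_nt.HD
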