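import Pool.Agent.Lib.MP_3e612f_nt.HD.Weyl
import Pool.Agent.Lib.MP_3e612f_nt.HD.Coef
import Pool.Agent.Lib.MP_3e612f_nt.HD.Newton

/-!
HD, section Moment: the moments of short sums with arbitrary coefficients.

PROOF. `‖z‖ ^ (2 s) = z ^ s * conj z ^ s`, and with `z = ∑_{a < L} b_a e (R (n + a))`
(`Finset.sum_pow'`/`Finset.prod_univ_sum`/`Fintype.piFinset`; index set `Fin L`)
`‖z‖ ^ (2 s) = ∑_{x, y : Fin s → Fin L} (∏ b_{x_i} conj b_{y_i}) e ((shiftPoly R x y).eval n)`.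
Sum over `n`: a pair `(x, y)` with equal power sums of order `≤ s` contributes at most `N`
(`count_le`: at most `s! L ^ s` pairs); every other pair contributes at most `ε N` for `N ≥ N0`
by `shiftPoly_irr` and `weyl` (finitely many pairs, so one `N0`); there are `L ^ (2 s)` pairs.
-/

set_option autoImplicit false

namespace Pool.Agent.Lib.MP_3e612f_nt.HD

/-- The sum over the residues as a sum over `Fin L`. -/
private lemma Moment_expand (R : Polynomial ℝ) (s L : ℕ) (b : ℕ → ℂ) (n : ℕ) :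
    ((‖∑ a ∈ Finset.range L, b a * ex (R.eval ((n + a : ℕ) : ℝ))‖ ^ (2 * s) : ℝ) : ℂ) =
      ∑ q : (Fin s → Fin L) × (Fin s → Fin L),
        ((∏ i, b (q.1 i)) * ∏ i, (starRingEnd ℂ) (b (q.2 i))) *
          ex ((shiftPoly R (fun i => (q.1 i : ℕ)) (fun i => (q.2 i : ℕ))).eval (n : ℝ)) := by
  set z : ℂ := ∑ a ∈ Finset.range L, b a * ex (R.eval ((n + a : ℕ) : ℝ)) with hz
  have hz' : z = ∑ a : Fin L, b a * ex (R.eval ((n + (a : ℕ) : ℕ) : ℝ)) := by
    rw [hz, Finset.sum_range]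
  have h1 : ((‖z‖ ^ (2 * s) : ℝ) : ℂ) = z ^ s * ((starRingEnd ℂ) z) ^ s := by
    rw [← mul_pow, Complex.mul_conj, Complex.normSq_eq_norm_sq, pow_mul]
    push_cast
    ring
  have h2 : z ^ s = ∑ x : Fin s → Fin L, ∏ i, (b (x i) * ex (R.eval ((n + (x i : ℕ) : ℕ) : ℝ))) := by
    rw [hz', Fintype.sum_pow]
  have h3 : ((starRingEnd ℂ) z) ^ s = ∑ y : Fin s → Fin L,
      ∏ i, ((starRingEnd ℂ) (b (y i)) * ex (-(R.eval ((n + (y i : ℕ) : ℕ) : ℝ)))) := by
    rw [hz', map_sum, Fintype.sum_pow]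
    refine Finset.sum_congr rfl fun y _ => Finset.prod_congr rfl fun i _ => ?_
    rw [map_mul, conj_ex]
  rw [h1, h2, h3, Finset.sum_mul_sum, Fintype.sum_prod_type]
  refine Finset.sum_congr rfl fun x _ => Finset.sum_congr rfl fun y _ => ?_
  rw [Finset.prod_mul_distrib, Finset.prod_mul_distrib, shiftPoly_eval, ex_sum]
  have h4 : ∀ i, ex (R.eval ((n + (x i : ℕ) : ℕ) : ℝ) - R.eval ((n + (y i : ℕ) : ℕ) : ℝ)) =
      ex (R.eval ((n + (x i : ℕ) : ℕ) : ℝ)) * ex (-(R.eval ((n + (y i : ℕ) : ℕ) : ℝ))) := by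
    intro i
    rw [sub_eq_add_neg, ex_add]
  rw [Finset.prod_congr rfl (fun i _ => h4 i), Finset.prod_mul_distrib]
  ring

theorem moment {R : Polynomial ℝ} {s d : ℕ} (hd : s + 1 ≤ d) (hR : Irrational (R.coeff d))
    {L : ℕ} (hL : 1 ≤ L) {ε : ℝ} (hε : 0 < ε) :
    ∃ N0 : ℕ, ∀ N ≥ N0, ∀ b : ℕ → ℂ, (∀ a, ‖b a‖ ≤ 1) →
      ∑ n ∈ Finset.Icc 1 N, ‖(1 / (L : ℂ)) * ∑ a ∈ Finset.range L,
        b a * ex (R.eval ((n + a : ℕ) : ℝ))‖ ^ (2 * s) ≤
      ((s.factorial : ℝ) / (L : ℝ) ^ s + ε) * N := by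
  classical
  set good : Finset ((Fin s → Fin L) × (Fin s → Fin L)) := Finset.univ.filter
      fun q => ∀ j ≤ s, ∑ i, (q.1 i : ℕ) ^ j = ∑ i, (q.2 i : ℕ) ^ j with hgood
  have hW : ∀ q : (Fin s → Fin L) × (Fin s → Fin L), ∃ N0 : ℕ, q ∉ good → ∀ N ≥ N0,
      ‖∑ n ∈ Finset.Icc 1 N,
        ex ((shiftPoly R (fun i => (q.1 i : ℕ)) (fun i => (q.2 i : ℕ))).eval (n : ℝ))‖ ≤ ε * N := by
    intro q
    by_cases hq : q ∈ good
    · exact ⟨0, fun h => absurd hq h⟩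
    · have h1 : ∃ j, j ≤ s ∧ ∑ i, (q.1 i : ℕ) ^ j ≠ ∑ i, (q.2 i : ℕ) ^ j := by
        by_contra hcon
        push Not at hcon
        exact hq (Finset.mem_filter.2 ⟨Finset.mem_univ _, hcon⟩)
      obtain ⟨N0, hN0⟩ := weyl _ (shiftPoly_irr hd hR h1) hε
      exact ⟨N0, fun _ => hN0⟩
  choose N0 hN0 using hW
  refine ⟨Finset.univ.sup N0, fun N hN b hb => ?_⟩
  have hL0 : (0 : ℝ) < L := by exact_mod_cast hL
  set z : ℕ → ℂ := fun n => ∑ a ∈ Finset.range L, b a * ex (R.eval ((n + a : ℕ) : ℝ)) with hz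
  set Sq : (Fin s → Fin L) × (Fin s → Fin L) → ℂ := fun q => ∑ n ∈ Finset.Icc 1 N,
      ex ((shiftPoly R (fun i => (q.1 i : ℕ)) (fun i => (q.2 i : ℕ))).eval (n : ℝ)) with hSq
  set cq : (Fin s → Fin L) × (Fin s → Fin L) → ℂ := fun q =>
    (∏ i, b (q.1 i)) * ∏ i, (starRingEnd ℂ) (b (q.2 i)) with hcq
  have hcn : ∀ q, ‖cq q‖ ≤ 1 := by
    intro q
    rw [hcq]
    simp only [norm_mul, norm_prod, RCLike.norm_conj]
    have h1 : ∏ i, ‖b (q.1 i)‖ ≤ 1 := Finset.prod_le_one (fun i _ => norm_nonneg _) fun i _ => hb _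
    have h2 : ∏ i, ‖b (q.2 i)‖ ≤ 1 := Finset.prod_le_one (fun i _ => norm_nonneg _) fun i _ => hb _
    exact mul_le_one₀ h1 (Finset.prod_nonneg fun i _ => norm_nonneg _) h2
  -- the main identity
  have hmain : ((∑ n ∈ Finset.Icc 1 N, ‖z n‖ ^ (2 * s) : ℝ) : ℂ) = ∑ q, cq q * Sq q := by
    rw [Complex.ofReal_sum, Finset.sum_congr rfl (fun n _ => Moment_expand R s L b n),
      Finset.sum_comm]
    refine Finset.sum_congr rfl fun q _ => ?_
    rw [hSq, Finset.mul_sum]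
  have htriv : ∀ q, ‖Sq q‖ ≤ N := by
    intro q
    refine (norm_sum_le _ _).trans ?_
    rw [Finset.sum_congr rfl (fun n _ => norm_ex _)]
    simp
  have hbad : ∀ q, q ∉ good → ‖Sq q‖ ≤ ε * N := by
    intro q hq
    exact hN0 q hq N ((Finset.le_sup (Finset.mem_univ q)).trans hN)
  have hsum : ∑ n ∈ Finset.Icc 1 N, ‖z n‖ ^ (2 * s) ≤
      ((s.factorial * L ^ s : ℕ) : ℝ) * N + ((L : ℝ) ^ (2 * s)) * (ε * N) := by
    have h1 : ∑ n ∈ Finset.Icc 1 N, ‖z n‖ ^ (2 * s) =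
        ‖((∑ n ∈ Finset.Icc 1 N, ‖z n‖ ^ (2 * s) : ℝ) : ℂ)‖ := by
      rw [Complex.norm_real, Real.norm_eq_abs, abs_of_nonneg]
      exact Finset.sum_nonneg fun n _ => by positivity
    rw [h1, hmain]
    refine (norm_sum_le _ _).trans ?_
    have h2 : ∀ q, ‖cq q * Sq q‖ ≤ (if q ∈ good then (N : ℝ) else 0) + ε * N := by
      intro q
      rw [norm_mul]
      have h3 : ‖cq q‖ * ‖Sq q‖ ≤ ‖Sq q‖ := by
        have := mul_le_mul_of_nonneg_right (hcn q) (norm_nonneg (Sq q))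
        linarith
      have hεN : 0 ≤ ε * N := by positivity
      by_cases hq : q ∈ good
      · rw [if_pos hq]
        linarith [htriv q]
      · rw [if_neg hq]
        linarith [hbad q hq]
    refine (Finset.sum_le_sum fun q _ => h2 q).trans ?_
    rw [Finset.sum_add_distrib, ← Finset.sum_filter, Finset.sum_const, Finset.sum_const,
      nsmul_eq_mul, nsmul_eq_mul]
    have hcard : ((Finset.univ : Finset ((Fin s → Fin L) × (Fin s → Fin L))).card : ℝ) =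
        (L : ℝ) ^ (2 * s) := by
      rw [Finset.card_univ, Fintype.card_prod, Fintype.card_fun, Fintype.card_fin,
        Fintype.card_fin, two_mul, pow_add]
      push_cast
      ring
    rw [hcard]
    have hfil : (Finset.univ.filter fun q => q ∈ good) = good := by
      ext q; simp
    rw [hfil]
    have hcnt : (good.card : ℝ) ≤ ((s.factorial * L ^ s : ℕ) : ℝ) := by
      exact_mod_cast count_le s L
    have := mul_le_mul_of_nonneg_right hcnt (Nat.cast_nonneg (α := ℝ) N)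
    linarith
  have hnorm : ∀ n, ‖(1 / (L : ℂ)) * ∑ a ∈ Finset.range L,
      b a * ex (R.eval ((n + a : ℕ) : ℝ))‖ ^ (2 * s) = (1 / (L : ℝ) ^ (2 * s)) * ‖z n‖ ^ (2 * s) := by
    intro n
    rw [norm_mul, mul_pow, norm_div, norm_one, Complex.norm_natCast, one_div, inv_pow, one_div]
  rw [Finset.sum_congr rfl (fun n _ => hnorm n), ← Finset.mul_sum]
  have hLp : (0 : ℝ) < (L : ℝ) ^ (2 * s) := by positivity
  refine (mul_le_mul_of_nonneg_left hsum (by positivity)).trans (le_of_eq ?_)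
  push_cast
  rw [two_mul, pow_add]
  field_simp

end Pool.Agent.Lib.MP_3e612f_nt.HD
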