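import Pool.Agent.Lib.MP_3e612f_nt.HD.Moment
import Pool.Agent.Lib.MP_3e612f_nt.HD.Avg
import Pool.Agent.Lib.MP_3e612f_nt.HD.Words

/-!
HD, section Pair: the correlation sums of the criterion of Kátai.

PROOF of `pair_sum`. `δ` from `words` with `η / 2`. Put `L' = L / r ≥ 1`; `r L' ≤ L ≤ 2 r L'`. By
`words` the function `G n = u (T ^ (p n) x) u (T ^ (r n) x)` has its words of length `L'` near a set
`B` of cardinality `≤ card F ^ 2`, the same for all `x`. Take `u n = e (R n)`. By `moment` (with a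
small `ε'`, so that `card F ^ 2 * ε' ≤ τ ^ (2 s) / 2`) and `hF` (`L ≤ 2 r L'` gives
`s! / L' ^ s ≤ s! (2 r) ^ s / L ^ s`) the hypotheses of `avg_le` hold with
`V = s! / L' ^ s + ε'` for all `N ≥ N0`, uniformly in `x`; finally `2 L' ≤ (η / 2) N` for large `N`.

PROOF of `pair_cos`. `cos A cos B = (cos (A + B) + cos (A - B)) / 2`: the product of
`b (p m)` and `b (r m)`, `b n = u (T ^ n x) cos (2 π (P n + θ))`, is
`G m * Re (e (R₊ m) + e (R₋ m)) / 2` with `R_± = P (p X) ± P (r X) + θ ± θ`; `pair_irr` and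
`pair_sum` (for both signs, `M = N / r` in the place of `N`; for `N < r N0'` nothing is claimed,
take `N0` large), `|∑| ≤ (η + 2 τ) M ≤ (η + 2 τ) N`.
-/

set_option autoImplicit false

namespace Pool.Agent.Lib.MP_3e612f_nt.HD

private theorem Pair_re_ex (t : ℝ) : (ex t).re = Real.cos (2 * Real.pi * t) := by
  unfold ex
  have : (2 * (Real.pi : ℂ) * Complex.I * (t : ℂ)) = ((2 * Real.pi * t : ℝ) : ℂ) * Complex.I := by
    push_cast; ring
  rw [this, Complex.exp_ofReal_mul_I_re]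

theorem pair_sum {X : Type} [MetricSpace X] [CompactSpace X] {u : X → ℝ} (hu : Continuous u)
    (hu1 : ∀ x, |u x| ≤ 1) (T : X → X) (r : ℕ) {η : ℝ} (hη : 0 < η) :
    ∃ δ : ℝ, 0 < δ ∧ ∀ p : ℕ, 1 ≤ p → p < r → ∀ s : ℕ, 1 ≤ s → ∀ τ : ℝ, 0 < τ → ∀ L : ℕ, r ≤ L →
      ∀ F : Finset X, Cov T L δ F →
      (F.card : ℝ) ^ 2 * (s.factorial * (2 * r : ℝ) ^ s) ≤ τ ^ (2 * s) / 2 * (L : ℝ) ^ s →
      ∀ (R : Polynomial ℝ) (d : ℕ), s + 1 ≤ d → Irrational (R.coeff d) →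
      ∃ N0 : ℕ, ∀ N ≥ N0, ∀ x : X, ‖∑ n ∈ Finset.Icc 1 N,
        ((u (T^[p * n] x) * u (T^[r * n] x) : ℝ) : ℂ) * ex (R.eval (n : ℝ))‖ ≤
        (η + 2 * τ) * N := by
  obtain ⟨δ, hδ, hwords⟩ := words hu hu1 T r (half_pos hη)
  refine ⟨δ, hδ, ?_⟩
  intro p hp hpr s hs τ hτ L hL F hcov hF R d hd hR
  have hr1 : 1 ≤ r := by omega
  obtain ⟨L', hL'⟩ : ∃ L' : ℕ, L' = L / r := ⟨_, rfl⟩
  have hL'1 : 1 ≤ L' := by
    rw [hL']
    exact (Nat.one_le_div_iff (by omega)).2 hL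
  have hrL1 : r * L' ≤ L := by
    rw [hL']
    exact Nat.mul_div_le L r
  have hrL2 : L ≤ 2 * r * L' := by
    have h1 : L < r * (L' + 1) := by
      rw [hL']
      exact Nat.lt_mul_div_succ L (by omega)
    have h2 : r * (L' + 1) ≤ 2 * r * L' := by nlinarith
    omega
  obtain ⟨B, hBc, hB1, hBw⟩ := hwords p hp hpr L L' hrL1 hrL2 F hcov
  have hτs : 0 < τ ^ (2 * s) := by positivity
  obtain ⟨ε', hε'⟩ : ∃ ε' : ℝ, ε' = τ ^ (2 * s) / (2 * ((B.card : ℝ) + 1)) := ⟨_, rfl⟩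
  have hε'0 : 0 < ε' := by rw [hε']; positivity
  have hε'B : (B.card : ℝ) * ε' ≤ τ ^ (2 * s) / 2 := by
    rw [hε', mul_div_assoc', div_le_div_iff₀ (by positivity) (by norm_num)]
    have : (0 : ℝ) ≤ B.card := Nat.cast_nonneg _
    nlinarith
  obtain ⟨N0, hmom⟩ := moment hd hR hL'1 hε'0
  obtain ⟨N1, hN1⟩ := exists_nat_ge (4 * (L' : ℝ) / η)
  refine ⟨max N0 N1, ?_⟩
  intro N hN x
  have hN0 : N0 ≤ N := le_trans (le_max_left _ _) hN
  have hN1' : (N1 : ℝ) ≤ N := by exact_mod_cast le_trans (le_max_right _ _) hN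
  have hLr : (0 : ℝ) < L := by exact_mod_cast (by omega : 0 < L)
  have hL'r : (0 : ℝ) < L' := by exact_mod_cast hL'1
  have hV0 : 0 ≤ (s.factorial : ℝ) / (L' : ℝ) ^ s + ε' := by positivity
  have hBV : (B.card : ℝ) * ((s.factorial : ℝ) / (L' : ℝ) ^ s + ε') ≤ τ ^ (2 * s) := by
    have h1 : (B.card : ℝ) ≤ (F.card : ℝ) ^ 2 := by exact_mod_cast hBc
    have h2 : (s.factorial : ℝ) / (L' : ℝ) ^ s ≤ s.factorial * (2 * r : ℝ) ^ s / (L : ℝ) ^ s := by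
      rw [div_le_div_iff₀ (by positivity) (by positivity)]
      have h3 : (L : ℝ) ≤ 2 * r * L' := by exact_mod_cast hrL2
      have h4 : (L : ℝ) ^ s ≤ (2 * r * L') ^ s := pow_le_pow_left₀ hLr.le h3 s
      calc (s.factorial : ℝ) * (L : ℝ) ^ s ≤ s.factorial * (2 * r * L') ^ s := by gcongr
        _ = s.factorial * (2 * r) ^ s * (L' : ℝ) ^ s := by rw [mul_pow (2 * (r : ℝ))]; ring
    have h3 : (B.card : ℝ) * ((s.factorial : ℝ) / (L' : ℝ) ^ s) ≤ τ ^ (2 * s) / 2 := by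
      calc (B.card : ℝ) * ((s.factorial : ℝ) / (L' : ℝ) ^ s)
          ≤ (F.card : ℝ) ^ 2 * (s.factorial * (2 * r : ℝ) ^ s / (L : ℝ) ^ s) := by gcongr
        _ = (F.card : ℝ) ^ 2 * (s.factorial * (2 * r : ℝ) ^ s) / (L : ℝ) ^ s := by ring
        _ ≤ τ ^ (2 * s) / 2 := by
          rw [div_le_iff₀ (by positivity)]
          exact hF
    rw [mul_add]
    linarith
  have hmain := avg_le (G := fun n => ((u (T^[p * n] x) * u (T^[r * n] x) : ℝ) : ℂ))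
    (u := fun n => ex (R.eval (n : ℝ))) (fun n => ?_) (fun n => (norm_ex _).le) hL'1
    (half_pos hη).le hV0 hτ hs B (hBw x) N (fun b hb => hmom N hN0 b (hB1 b hb)) hBV
  · refine hmain.trans ?_
    rw [div_le_iff₀ hη] at hN1
    have h1 : (N1 : ℝ) * η ≤ N * η := mul_le_mul_of_nonneg_right hN1' hη.le
    have h2 : (2 : ℝ) * L' ≤ η / 2 * N := by linarith
    linarith
  · rw [Complex.norm_real, Real.norm_eq_abs, abs_mul]
    exact mul_le_one₀ (hu1 _) (abs_nonneg _) (hu1 _)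

theorem pair_cos {X : Type} [MetricSpace X] [CompactSpace X] {u : X → ℝ} (hu : Continuous u)
    (hu1 : ∀ x, |u x| ≤ 1) (T : X → X) (r : ℕ) {η : ℝ} (hη : 0 < η) :
    ∃ δ : ℝ, 0 < δ ∧ ∀ p : ℕ, 1 ≤ p → p < r → ∀ s : ℕ, 1 ≤ s → ∀ τ : ℝ, 0 < τ → ∀ L : ℕ, r ≤ L →
      ∀ F : Finset X, Cov T L δ F →
      (F.card : ℝ) ^ 2 * (s.factorial * (2 * r : ℝ) ^ s) ≤ τ ^ (2 * s) / 2 * (L : ℝ) ^ s →
      ∀ (P : Polynomial ℝ) (d : ℕ), s + 1 ≤ d → Irrational (P.coeff d) → ∀ θ : ℝ,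
      ∃ N0 : ℕ, ∀ N ≥ N0, ∀ x : X, |∑ m ∈ Finset.Icc 1 (N / r),
        (u (T^[p * m] x) * Real.cos (2 * Real.pi * (P.eval ((p * m : ℕ) : ℝ) + θ))) *
        (u (T^[r * m] x) * Real.cos (2 * Real.pi * (P.eval ((r * m : ℕ) : ℝ) + θ)))| ≤
        (η + 2 * τ) * N := by
  obtain ⟨δ, hδ, hsum⟩ := pair_sum hu hu1 T r hη
  refine ⟨δ, hδ, ?_⟩
  intro p hp hpr s hs τ hτ L hL F hcov hF P d hd hP θ
  obtain ⟨R₁, hR₁⟩ : ∃ R₁ : Polynomial ℝ, R₁ = P.comp (Polynomial.C (p : ℝ) * Polynomial.X) +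
    Polynomial.C 1 * P.comp (Polynomial.C (r : ℝ) * Polynomial.X) + Polynomial.C (2 * θ) := ⟨_, rfl⟩
  obtain ⟨R₂, hR₂⟩ : ∃ R₂ : Polynomial ℝ, R₂ = P.comp (Polynomial.C (p : ℝ) * Polynomial.X) +
    Polynomial.C (-1) * P.comp (Polynomial.C (r : ℝ) * Polynomial.X) + Polynomial.C 0 := ⟨_, rfl⟩
  have hi₁ : Irrational (R₁.coeff d) := by
    rw [hR₁]
    exact pair_irr (by omega) hP hp hpr (Or.inl rfl) _
  have hi₂ : Irrational (R₂.coeff d) := by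
    rw [hR₂]
    exact pair_irr (by omega) hP hp hpr (Or.inr rfl) _
  obtain ⟨M₁, h₁⟩ := hsum p hp hpr s hs τ hτ L hL F hcov hF R₁ d hd hi₁
  obtain ⟨M₂, h₂⟩ := hsum p hp hpr s hs τ hτ L hL F hcov hF R₂ d hd hi₂
  refine ⟨r * (max M₁ M₂), ?_⟩
  intro N hN x
  have hr0 : 0 < r := by omega
  obtain ⟨M, hM⟩ : ∃ M : ℕ, M = N / r := ⟨_, rfl⟩
  have hMM : max M₁ M₂ ≤ M := by
    rw [hM, Nat.le_div_iff_mul_le hr0, mul_comm]
    exact hN
  rw [← hM]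
  have k₁ := h₁ M (le_trans (le_max_left _ _) hMM) x
  have k₂ := h₂ M (le_trans (le_max_right _ _) hMM) x
  have heq : ∑ m ∈ Finset.Icc 1 M,
      (u (T^[p * m] x) * Real.cos (2 * Real.pi * (P.eval ((p * m : ℕ) : ℝ) + θ))) *
      (u (T^[r * m] x) * Real.cos (2 * Real.pi * (P.eval ((r * m : ℕ) : ℝ) + θ))) =
      ((∑ n ∈ Finset.Icc 1 M, ((u (T^[p * n] x) * u (T^[r * n] x) : ℝ) : ℂ) * ex (R₁.eval (n : ℝ))).re +
        (∑ n ∈ Finset.Icc 1 M, ((u (T^[p * n] x) * u (T^[r * n] x) : ℝ) : ℂ) *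
          ex (R₂.eval (n : ℝ))).re) / 2 := by
    rw [Complex.re_sum, Complex.re_sum, ← Finset.sum_add_distrib, Finset.sum_div]
    refine Finset.sum_congr rfl fun m _ => ?_
    rw [Complex.re_ofReal_mul, Complex.re_ofReal_mul, Pair_re_ex, Pair_re_ex]
    have e₁ : R₁.eval (m : ℝ) = (P.eval ((p * m : ℕ) : ℝ) + θ) + (P.eval ((r * m : ℕ) : ℝ) + θ) := by
      rw [hR₁]
      simp only [Polynomial.eval_add, Polynomial.eval_mul, Polynomial.eval_comp, Polynomial.eval_C,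
        Polynomial.eval_X]
      push_cast
      ring
    have e₂ : R₂.eval (m : ℝ) = (P.eval ((p * m : ℕ) : ℝ) + θ) - (P.eval ((r * m : ℕ) : ℝ) + θ) := by
      rw [hR₂]
      simp only [Polynomial.eval_add, Polynomial.eval_mul, Polynomial.eval_comp, Polynomial.eval_C,
        Polynomial.eval_X]
      push_cast
      ring
    rw [e₁, e₂]
    generalize P.eval ((p * m : ℕ) : ℝ) + θ = A
    generalize P.eval ((r * m : ℕ) : ℝ) + θ = B
    rw [mul_add, mul_sub, Real.cos_add, Real.cos_sub]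
    ring
  rw [heq, abs_div, abs_two, div_le_iff₀ (by norm_num)]
  refine (abs_add_le _ _).trans ?_
  have a₁ := (Complex.abs_re_le_norm _).trans k₁
  have a₂ := (Complex.abs_re_le_norm _).trans k₂
  have hMN : (M : ℝ) ≤ N := by
    rw [hM]
    exact_mod_cast Nat.div_le_self N r
  have h3 : (η + 2 * τ) * M ≤ (η + 2 * τ) * N := mul_le_mul_of_nonneg_left hMN (by positivity)
  linarith

end Pool.Agent.Lib.MP_3e612f_nt.HD
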