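import Pool.Agent.Lib.MP_3e612f_nt.HD.Defs
import Pool.Agent.Lib.MP_3e612f_nt.WPoly

/-!
HD, section Weyl: Weyl's theorem for polynomials with an irrational coefficient in positive degree.

PROOF. (1) If `Q.natDegree ≤ D`, `1 ≤ D` and `Q.coeff D` is irrational: induction on `D`. `D = 1`:
geometric sum. Step: the inequality of van der Corput (proved: `Pool.Agent.Lib.MP_3e612f_nt.MB.WP.vdc`
in `WPoly.lean`; `WP.diff_poly` gives the differences `taylor s Q - Q`; `SA.weyl_q` in `PWeyl.lean`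
is a similar induction) with a fixed number of shifts. Sums over `Finset.range N` and
`Finset.Icc 1 N` differ by two terms of norm one.
(2) General: let `D ≥ 1` be the LARGEST index with `Q.coeff D` irrational. The coefficients of
degree `> D` are rational; let `M ≥ 1` be a common denominator. Split `n = M k + r`, `r < M`. The
part `Q2` of degree `> D` satisfies `Q2 (M k + r) - Q2 r ∈ ℤ` (`M Q2 ∈ ℤ[X]` and
`Polynomial.sub_dvd_eval_sub`), so its phase is constant on the class, and the rest, composed with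
`M X + r`, has `natDegree ≤ D` and coefficient `Q.coeff D * M ^ D` (irrational) in degree `D`:
apply (1) to each of the `M` classes.
-/

set_option autoImplicit false

namespace Pool.Agent.Lib.MP_3e612f_nt.HD

open Polynomial

theorem Weyl_ex_ne_one {κ : ℝ} (hκ : Irrational κ) : ex κ ≠ 1 := by
  intro h
  unfold ex at h
  rw [Complex.exp_eq_one_iff] at h
  obtain ⟨n, hn⟩ := h
  have h1 : (2 * (Real.pi : ℂ) * Complex.I) ≠ 0 := by
    simp [Real.pi_ne_zero, Complex.I_ne_zero]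
  have h2 : (κ : ℂ) = (n : ℂ) := by
    apply mul_left_cancel₀ h1
    linear_combination hn
  have h3 : κ = (n : ℝ) := by exact_mod_cast h2
  exact hκ.ne_int n h3

theorem Weyl_ex_nat (κ : ℝ) (n : ℕ) : ex (κ * n) = ex κ ^ n := by
  unfold ex
  rw [← Complex.exp_nat_mul]
  congr 1
  push_cast
  ring

theorem Weyl_ex_int (n : ℤ) : ex n = 1 := by
  unfold ex
  rw [Complex.exp_eq_one_iff]
  exact ⟨n, by push_cast; ring⟩

/-- the leading coefficient is irrational -/
theorem Weyl_top {D : ℕ} (hD : 1 ≤ D) : ∀ Q : Polynomial ℝ, Q.natDegree ≤ D →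
    Irrational (Q.coeff D) → ∀ ε : ℝ, 0 < ε →
    ∃ N0 : ℕ, ∀ N ≥ N0, ‖∑ n ∈ Finset.range N, ex (Q.eval (n : ℝ))‖ ≤ ε * N := by
  induction D, hD using Nat.le_induction with
  | base =>
    intro Q hd hQ ε hε
    have hne : ex (Q.coeff 1) - 1 ≠ 0 := sub_ne_zero.mpr (Weyl_ex_ne_one hQ)
    have hpos : 0 < ‖ex (Q.coeff 1) - 1‖ := norm_pos_iff.mpr hne
    obtain ⟨N0, hN0⟩ := exists_nat_ge (2 / ‖ex (Q.coeff 1) - 1‖ / ε)
    refine ⟨N0, fun N hN => ?_⟩
    have hpe : ∀ x : ℕ, ex (Q.eval (x : ℝ)) = ex (Q.coeff 1) ^ x * ex (Q.coeff 0) := by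
      intro x
      rw [← Weyl_ex_nat, ← ex_add]
      congr 1
      rw [eval_eq_sum_range' (n := 2) (by omega), Finset.sum_range_succ, Finset.sum_range_one]
      ring
    simp only [hpe]
    rw [← Finset.sum_mul, norm_mul, norm_ex, mul_one, geom_sum_eq (Weyl_ex_ne_one hQ), norm_div]
    have h1 : ‖ex (Q.coeff 1) ^ N - 1‖ ≤ 2 := by
      calc ‖ex (Q.coeff 1) ^ N - 1‖ ≤ ‖ex (Q.coeff 1) ^ N‖ + ‖(1 : ℂ)‖ := norm_sub_le _ _
        _ = 2 := by rw [norm_pow, norm_ex]; norm_num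
    have h2 : (N0 : ℝ) ≤ N := by exact_mod_cast hN
    calc ‖ex (Q.coeff 1) ^ N - 1‖ / ‖ex (Q.coeff 1) - 1‖ ≤ 2 / ‖ex (Q.coeff 1) - 1‖ := by gcongr
      _ = ε * (2 / ‖ex (Q.coeff 1) - 1‖ / ε) := by field_simp
      _ ≤ ε * N := by
        apply mul_le_mul_of_nonneg_left _ hε.le
        exact hN0.trans h2
  | succ D hD ih =>
    intro Q hd hQ ε hε
    obtain ⟨H, hH⟩ := exists_nat_ge (16 / ε ^ 2 + 1)
    have hH1 : (1 : ℝ) ≤ H := by
      have : (0 : ℝ) ≤ 16 / ε ^ 2 := by positivity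
      linarith
    have hHpos : (0 : ℝ) < H := by linarith
    have hH1' : 1 ≤ H := by exact_mod_cast hH1
    have hHe : 1 / (H : ℝ) ≤ ε ^ 2 / 16 := by
      rw [div_le_iff₀ hHpos]
      have h1 : 16 / ε ^ 2 ≤ (H : ℝ) := by linarith
      rw [div_le_iff₀ (by positivity)] at h1
      nlinarith
    have hδ : 0 < ε ^ 2 / 16 := by positivity
    have hex : ∀ s : ℕ, ∃ N0 : ℕ, 1 ≤ s → ∀ N ≥ N0,
        ‖∑ n ∈ Finset.range N, ex ((taylor (s : ℝ) Q - Q).eval (n : ℝ))‖ ≤ ε ^ 2 / 16 * N := by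
      intro s
      by_cases hs : 1 ≤ s
      · obtain ⟨h1, h2⟩ := MB.WP.diff_poly hd hQ hs
        obtain ⟨N0, hN0⟩ := ih _ h1 h2 _ hδ
        exact ⟨N0, fun _ => hN0⟩
      · exact ⟨0, fun h => absurd h hs⟩
    choose Ns hNs using hex
    obtain ⟨N1, hN1⟩ := exists_nat_ge (2 * (H : ℝ) * (16 / ε ^ 2) + 4 * H / ε + 1)
    refine ⟨max N1 ((Finset.range H).sup Ns), fun N hN => ?_⟩
    have hNN1 : (N1 : ℝ) ≤ N := by exact_mod_cast (le_max_left _ _).trans hN
    have a1 : (0 : ℝ) ≤ 2 * (H : ℝ) * (16 / ε ^ 2) := by positivity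
    have a2 : (0 : ℝ) ≤ 4 * H / ε := by positivity
    have hNpos : (0 : ℝ) < N := by linarith
    have hNpos' : 1 ≤ N := by exact_mod_cast hNpos
    have hv := MB.WP.vdc (X := N) (H := H) hNpos' hH1' (U := fun n => ex (Q.eval (n : ℝ)))
      (fun n => (norm_ex _).le) hδ.le (by
        intro s hs hsH
        have h1 := hNs s hs N ((Finset.le_sup (f := Ns) (Finset.mem_range.2 hsH)).trans
          ((le_max_right _ _).trans hN))
        refine le_trans (le_of_eq ?_) h1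
        congr 1
        refine Finset.sum_congr rfl fun n _ => ?_
        rw [conj_ex, ← ex_add]
        congr 1
        rw [eval_sub, taylor_eval]
        push_cast
        ring_nf)
    have h2 : 2 * (H : ℝ) / N ≤ ε ^ 2 / 16 := by
      rw [div_le_iff₀ hNpos]
      have h3 : 2 * (H : ℝ) * (16 / ε ^ 2) ≤ N := by linarith
      have h4 := mul_le_mul_of_nonneg_left h3 hδ.le
      have h5 : ε ^ 2 / 16 * (2 * (H : ℝ) * (16 / ε ^ 2)) = 2 * H := by
        field_simp
      linarith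
    have h3 : Real.sqrt (1 / H + ε ^ 2 / 16 + 2 * H / N) ≤ ε / 2 := by
      rw [Real.sqrt_le_left (by positivity)]
      nlinarith
    have h4 : 2 * (H : ℝ) ≤ ε / 2 * N := by
      have h5 : 4 * (H : ℝ) / ε ≤ N := by linarith
      rw [div_le_iff₀ hε] at h5
      linarith
    calc ‖∑ n ∈ Finset.range N, ex (Q.eval (n : ℝ))‖
        ≤ 2 * H + N * Real.sqrt (1 / H + ε ^ 2 / 16 + 2 * H / N) := hv
      _ ≤ ε / 2 * N + N * (ε / 2) := add_le_add h4 (mul_le_mul_of_nonneg_left h3 hNpos.le)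
      _ = ε * N := by ring

theorem Weyl_split (f : ℕ → ℂ) (K M : ℕ) : ∑ n ∈ Finset.range (M * K), f n =
    ∑ r ∈ Finset.range M, ∑ k ∈ Finset.range K, f (M * k + r) := by
  induction K with
  | zero => simp
  | succ K ih =>
    rw [Nat.mul_succ, Finset.sum_range_add, ih]
    simp only [Finset.sum_range_succ _ K, Finset.sum_add_distrib]

/-- the polynomial composed with `M X + r` -/
theorem Weyl_comp {D : ℕ} {Q : Polynomial ℝ} (hd : Q.natDegree ≤ D) (hQ : Irrational (Q.coeff D))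
    {M : ℕ} (hM : 1 ≤ M) (r : ℝ) :
    (Q.comp (C (M : ℝ) * X + C r)).natDegree ≤ D ∧
      Irrational ((Q.comp (C (M : ℝ) * X + C r)).coeff D) := by
  constructor
  · refine natDegree_comp_le.trans ?_
    have h1 : (C (M : ℝ) * X + C r).natDegree ≤ 1 := natDegree_linear_le
    calc Q.natDegree * (C (M : ℝ) * X + C r).natDegree ≤ D * 1 := Nat.mul_le_mul hd h1
      _ = D := mul_one D
  · have h1 : Q.comp (C (M : ℝ) * X + C r) = (taylor r Q).comp (C (M : ℝ) * X) := by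
      rw [taylor_apply, comp_assoc]
      simp
    have h2 : (hasseDeriv D Q).eval r = Q.coeff D := by
      have hdeg : (hasseDeriv D Q).natDegree < 1 := by
        have := natDegree_hasseDeriv_le Q D
        omega
      rw [eval_eq_sum_range' hdeg, Finset.sum_range_one]
      simp [hasseDeriv_coeff]
    rw [h1, comp_C_mul_X_coeff, taylor_coeff, h2]
    have := hQ.mul_natCast (m := M ^ D) (by positivity)
    push_cast at this
    exact this

/-- the part with rational coefficients is constant modulo one on residue classes -/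
theorem Weyl_rat {Q : Polynomial ℝ} {M : ℕ} (h : ∀ i, ∃ z : ℤ, (M : ℝ) * Q.coeff i = z)
    (k r : ℕ) : ∃ z : ℤ, Q.eval (((M * k + r : ℕ) : ℕ) : ℝ) = Q.eval (r : ℝ) + z := by
  choose z hz using h
  have hdvd : ∀ i : ℕ, ∃ w : ℤ, ((M * k + r : ℕ) : ℤ) ^ i - (r : ℤ) ^ i = M * w := by
    intro i
    obtain ⟨w, hw⟩ := sub_dvd_pow_sub_pow (((M * k + r : ℕ) : ℤ)) (r : ℤ) i
    refine ⟨k * w, ?_⟩
    rw [hw]
    push_cast
    ring
  choose w hw using hdvd
  refine ⟨∑ i ∈ Finset.range (Q.natDegree + 1), z i * w i, ?_⟩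
  have h1 : Q.eval (((M * k + r : ℕ) : ℕ) : ℝ) - Q.eval (r : ℝ) =
      ((∑ i ∈ Finset.range (Q.natDegree + 1), z i * w i : ℤ) : ℝ) := by
    rw [eval_eq_sum_range, eval_eq_sum_range, ← Finset.sum_sub_distrib]
    push_cast
    refine Finset.sum_congr rfl fun i _ => ?_
    rw [← hz i]
    have h2 : ((((M * k + r : ℕ) : ℤ) ^ i - (r : ℤ) ^ i : ℤ) : ℝ) = ((M * w i : ℤ) : ℝ) := by
      rw [hw i]
    push_cast at h2
    linear_combination (Q.coeff i) * h2
  linarith

theorem Weyl_range (Q : Polynomial ℝ) (hQ : ∃ i, 1 ≤ i ∧ Irrational (Q.coeff i)) {ε : ℝ}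
    (hε : 0 < ε) :
    ∃ N0 : ℕ, ∀ N ≥ N0, ‖∑ n ∈ Finset.range N, ex (Q.eval (n : ℝ))‖ ≤ ε * N := by
  classical
  obtain ⟨i, hi, hirr⟩ := hQ
  have hzero : ∀ j, Q.natDegree < j → ¬ Irrational (Q.coeff j) := by
    intro j hj h
    rw [coeff_eq_zero_of_natDegree_lt hj] at h
    exact h.ne_zero rfl
  have hin : i ≤ Q.natDegree := by
    by_contra h
    exact hzero i (by omega) hirr
  obtain ⟨D, hD⟩ : ∃ D, D = Nat.findGreatest (fun j => Irrational (Q.coeff j)) Q.natDegree :=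
    ⟨_, rfl⟩
  have hDirr : Irrational (Q.coeff D) := by
    rw [hD]
    exact Nat.findGreatest_spec (P := fun j => Irrational (Q.coeff j)) hin hirr
  have hD1 : 1 ≤ D := by
    rw [hD]
    exact hi.trans (Nat.le_findGreatest hin hirr)
  have hrat : ∀ j, D < j → ¬ Irrational (Q.coeff j) := by
    intro j hj
    rcases Nat.lt_or_ge Q.natDegree j with h | h
    · exact hzero j h
    · rw [hD] at hj
      exact Nat.findGreatest_is_greatest hj h
  -- the common denominator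
  have hex : ∀ j, ∃ q : ℚ, D < j → Q.coeff j = q := by
    intro j
    by_cases hj : D < j
    · have h1 := hrat j hj
      unfold Irrational at h1
      push Not at h1
      obtain ⟨q, hq⟩ := h1
      exact ⟨q, fun _ => hq.symm⟩
    · exact ⟨0, fun h => absurd h hj⟩
  choose q hq using hex
  obtain ⟨M, hM⟩ : ∃ M : ℕ, M = ∏ j ∈ Finset.range (Q.natDegree + 1), (q j).den := ⟨_, rfl⟩
  have hM1 : 1 ≤ M := by
    rw [hM]
    exact Finset.prod_pos fun j _ => (q j).den_pos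
  obtain ⟨Q1, hQ1⟩ : ∃ Q1 : Polynomial ℝ,
      Q1 = ∑ j ∈ Finset.range (D + 1), monomial j (Q.coeff j) := ⟨_, rfl⟩
  have hQ1c : ∀ j, Q1.coeff j = if j ≤ D then Q.coeff j else 0 := by
    intro j
    rw [hQ1, finsetSum_coeff]
    simp only [coeff_monomial]
    rw [Finset.sum_ite_eq' (Finset.range (D + 1)) j (fun i => Q.coeff i)]
    simp only [Finset.mem_range, Nat.lt_succ_iff]
  have hQ1d : Q1.natDegree ≤ D := by
    rw [natDegree_le_iff_coeff_eq_zero]
    intro j hj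
    rw [hQ1c, if_neg (by omega)]
  have hQ1irr : Irrational (Q1.coeff D) := by
    rw [hQ1c, if_pos le_rfl]
    exact hDirr
  have hint : ∀ j, ∃ z : ℤ, (M : ℝ) * (Q - Q1).coeff j = z := by
    intro j
    rw [coeff_sub, hQ1c]
    by_cases hj : j ≤ D
    · refine ⟨0, ?_⟩
      rw [if_pos hj]
      simp
    · rw [if_neg hj, sub_zero]
      rcases Nat.lt_or_ge Q.natDegree j with h | h
      · refine ⟨0, ?_⟩
        rw [coeff_eq_zero_of_natDegree_lt h]
        simp
      · obtain ⟨m, hm⟩ : (q j).den ∣ M := by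
          rw [hM]
          exact Finset.dvd_prod_of_mem (fun j => (q j).den) (Finset.mem_range.2 (by omega))
        refine ⟨m * (q j).num, ?_⟩
        rw [hq j (by omega), hm]
        have h1 : ((q j : ℚ) : ℝ) * (q j).den = (q j).num := by
          exact_mod_cast congrArg (fun x : ℚ => (x : ℝ)) (Rat.mul_den_eq_num (q j))
        push_cast
        linear_combination (m : ℝ) * h1
  -- the classes
  have hcl : ∀ r : ℕ, ∃ K0 : ℕ, ∀ K ≥ K0,
      ‖∑ k ∈ Finset.range K, ex (Q.eval ((M * k + r : ℕ) : ℝ))‖ ≤ ε / 2 * K := by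
    intro r
    obtain ⟨h1, h2⟩ := Weyl_comp hQ1d hQ1irr hM1 (r : ℝ)
    obtain ⟨K0, hK0⟩ := Weyl_top hD1 _ h1 h2 (ε / 2) (by positivity)
    refine ⟨K0, fun K hK => ?_⟩
    have h3 : ∀ k : ℕ, ex (Q.eval ((M * k + r : ℕ) : ℝ)) =
        ex ((Q1.comp (C (M : ℝ) * X + C (r : ℝ))).eval (k : ℝ)) *
          ex ((Q - Q1).eval (r : ℝ)) := by
      intro k
      obtain ⟨z, hz⟩ := Weyl_rat hint k r
      have e1 : Q.eval ((M * k + r : ℕ) : ℝ) =
          (Q1.comp (C (M : ℝ) * X + C (r : ℝ))).eval (k : ℝ) + (Q - Q1).eval (r : ℝ) + z := by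
        have e2 : (Q1.comp (C (M : ℝ) * X + C (r : ℝ))).eval (k : ℝ) =
            Q1.eval ((M * k + r : ℕ) : ℝ) := by
          rw [eval_comp]
          congr 1
          simp
        rw [e2, add_assoc, ← hz, eval_sub]
        ring
      rw [e1, ex_add, ex_add, Weyl_ex_int, mul_one]
    simp only [h3]
    rw [← Finset.sum_mul, norm_mul, norm_ex, mul_one]
    exact hK0 K hK
  choose K0 hK0 using hcl
  obtain ⟨N1, hN1⟩ := exists_nat_ge (2 * (M : ℝ) / ε)
  refine ⟨max N1 (M * ((Finset.range M).sup K0 + 1)), fun N hN => ?_⟩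
  have hNM : M * (N / M) + N % M = N := Nat.div_add_mod N M
  obtain ⟨K, hK⟩ : ∃ K, K = N / M := ⟨_, rfl⟩
  have hKK : (Finset.range M).sup K0 ≤ K := by
    have h1 : M * ((Finset.range M).sup K0 + 1) ≤ N := (le_max_right _ _).trans hN
    rw [hK, Nat.le_div_iff_mul_le (by omega)]
    nlinarith
  have hsum : ∑ n ∈ Finset.range N, ex (Q.eval (n : ℝ)) =
      ∑ r ∈ Finset.range M, ∑ k ∈ Finset.range K, ex (Q.eval ((M * k + r : ℕ) : ℝ)) +
        ∑ n ∈ Finset.range (N % M), ex (Q.eval ((M * K + n : ℕ) : ℝ)) := by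
    conv_lhs => rw [← hNM, ← hK]
    rw [Finset.sum_range_add, Weyl_split (fun n => ex (Q.eval (n : ℝ))) K M]
  rw [hsum]
  have h1 : ‖∑ r ∈ Finset.range M, ∑ k ∈ Finset.range K,
      ex (Q.eval ((M * k + r : ℕ) : ℝ))‖ ≤ M * (ε / 2 * K) := by
    refine (norm_sum_le _ _).trans ((Finset.sum_le_card_nsmul _ _ (ε / 2 * K) ?_).trans ?_)
    · intro r hr
      exact hK0 r K ((Finset.le_sup (f := K0) hr).trans hKK)
    · rw [Finset.card_range, nsmul_eq_mul]
  have h2 : ‖∑ n ∈ Finset.range (N % M), ex (Q.eval ((M * K + n : ℕ) : ℝ))‖ ≤ M := by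
    refine (norm_sum_le _ _).trans ((Finset.sum_le_card_nsmul _ _ 1 ?_).trans ?_)
    · intro n _
      exact (norm_ex _).le
    · rw [Finset.card_range, nsmul_eq_mul, mul_one]
      exact_mod_cast (Nat.mod_lt N (by omega)).le
  have h3 : (M : ℝ) * K ≤ N := by
    have : M * K ≤ N := by rw [hK]; exact Nat.mul_div_le N M
    exact_mod_cast this
  have h4 : 2 * (M : ℝ) / ε ≤ N := by
    refine hN1.trans ?_
    exact_mod_cast (le_max_left _ _).trans hN
  rw [div_le_iff₀ hε] at h4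
  refine (norm_add_le _ _).trans ?_
  nlinarith

theorem weyl (Q : Polynomial ℝ) (hQ : ∃ i, 1 ≤ i ∧ Irrational (Q.coeff i)) {ε : ℝ} (hε : 0 < ε) :
    ∃ N0 : ℕ, ∀ N ≥ N0, ‖∑ n ∈ Finset.Icc 1 N, ex (Q.eval (n : ℝ))‖ ≤ ε * N := by
  obtain ⟨N0, hN0⟩ := Weyl_range Q hQ (half_pos hε)
  obtain ⟨N1, hN1⟩ := exists_nat_ge (4 / ε)
  refine ⟨max N0 N1, fun N hN => ?_⟩
  have h1 := hN0 N ((le_max_left _ _).trans hN)
  have h2 : (N1 : ℝ) ≤ N := by exact_mod_cast (le_max_right _ _).trans hN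
  have h3 : 4 / ε ≤ N := hN1.trans h2
  rw [div_le_iff₀ hε] at h3
  have h4 : ∑ n ∈ Finset.Icc 1 N, ex (Q.eval (n : ℝ)) =
      ∑ n ∈ Finset.range N, ex (Q.eval (n : ℝ)) + ex (Q.eval (N : ℝ)) -
        ex (Q.eval ((0 : ℕ) : ℝ)) := by
    have h5 : ∑ n ∈ Finset.range (N + 1), ex (Q.eval (n : ℝ)) =
        ∑ n ∈ Finset.Icc 1 N, ex (Q.eval (n : ℝ)) + ex (Q.eval ((0 : ℕ) : ℝ)) := by
      rw [Finset.sum_range_succ', Finset.range_eq_Ico,
        Finset.sum_Ico_add' (fun n : ℕ => ex (Q.eval (n : ℝ))) 0 N 1]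
      rfl
    rw [Finset.sum_range_succ] at h5
    rw [h5]
    ring
  rw [h4]
  have h5 := norm_sub_le (∑ n ∈ Finset.range N, ex (Q.eval (n : ℝ)) + ex (Q.eval (N : ℝ)))
    (ex (Q.eval ((0 : ℕ) : ℝ)))
  have h6 := norm_add_le (∑ n ∈ Finset.range N, ex (Q.eval (n : ℝ))) (ex (Q.eval (N : ℝ)))
  rw [norm_ex] at h5 h6
  linarith

end Pool.Agent.Lib.MP_3e612f_nt.HD
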